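import Mathlib

set_option autoImplicit false

/-!
# Functions to a measure algebra which are continuous on a residual set
-/

namespace Pool.Agent.R582.ZZ

open Cardinal Set Filter Topology MeasureTheory
open scoped ENNReal symmDiff

section Limit

variable {X M : Type*} [TopologicalSpace X] [BaireSpace X] [PseudoEMetricSpace M]

/-- A pointwise limit of functions continuous on a residual set is continuous on a residual set. -/
theorem residual_of_tendsto {c : ℕ → X → M} {b : X → M} {G : Set X} (hG : G ∈ residual X)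
    (hc : ∀ N, ContinuousOn (c N) G) (hlim : ∀ x ∈ G, Tendsto (fun N => c N x) atTop (𝓝 (b x))) :
    ∃ G' ∈ residual X, ContinuousOn b G' := by
  obtain ⟨t, htG, htGδ, htd⟩ := mem_residual.1 hG
  let E : ℝ≥0∞ → ℕ → Set X := fun ε N => {x | x ∈ G ∧ ∀ L, N ≤ L → edist (c N x) (c L x) ≤ ε}
  have hE : ∀ ε N, ∀ y ∈ G, y ∈ closure (E ε N) → y ∈ E ε N := by
    intro ε N y hyG hy
    refine ⟨hyG, fun L hL => ?_⟩
    have h1 : ContinuousWithinAt (fun y => edist (c N y) (c L y)) (E ε N) y :=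
      (((hc N) y hyG).mono fun z hz => hz.1).edist (((hc L) y hyG).mono fun z hz => hz.1)
    have h2 := h1.mem_closure (t := Iic ε) hy fun z hz => hz.2 L hL
    rwa [closure_Iic] at h2
  have hD : ∀ ε, 0 < ε → (⋃ N, interior (closure (E ε N))) ∈ residual X := by
    intro ε hε
    apply residual_of_dense_open
    · exact isOpen_iUnion fun N => isOpen_interior
    · refine htGδ.dense_iUnion_interior_of_closed htd (fun N => isClosed_closure) ?_
      intro x hx
      have h1 := (hlim x (htG hx)).cauchySeq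
      obtain ⟨N, hN⟩ := EMetric.cauchySeq_iff.1 h1 ε hε
      exact mem_iUnion.2 ⟨N, subset_closure ⟨htG hx, fun L hL => (hN N le_rfl L hL).le⟩⟩
  have hD' : (⋂ j : ℕ, ⋃ N, interior (closure (E ((j : ℝ≥0∞) + 1)⁻¹ N))) ∈ residual X := by
    rw [countable_iInter_mem]
    intro j
    apply hD
    simp
  refine ⟨G ∩ ⋂ j : ℕ, ⋃ N, interior (closure (E ((j : ℝ≥0∞) + 1)⁻¹ N)), inter_mem hG hD', ?_⟩
  intro x hx
  rw [ContinuousWithinAt, EMetric.tendsto_nhds]
  intro ε hε
  obtain ⟨j, hj⟩ := ENNReal.exists_inv_nat_lt (a := ε / 3) (by simpa using hε.ne')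
  have hj' : ((j : ℝ≥0∞) + 1)⁻¹ < ε / 3 := by
    refine lt_of_le_of_lt ?_ hj
    exact ENNReal.inv_le_inv.2 (by simp)
  set δ := ((j : ℝ≥0∞) + 1)⁻¹ with hδ
  have hδpos : 0 < δ := by rw [hδ]; simp
  obtain ⟨N, hN⟩ := mem_iUnion.1 (mem_iInter.1 hx.2 j)
  have hb : ∀ y ∈ E δ N, edist (c N y) (b y) ≤ δ := by
    intro y hy
    refine le_of_tendsto (tendsto_const_nhds.edist (hlim y hy.1)) ?_
    filter_upwards [eventually_ge_atTop N] with L hL
    exact hy.2 L hL
  have h1 : ∀ᶠ y in 𝓝[G ∩ ⋂ j : ℕ, ⋃ N, interior (closure (E ((j : ℝ≥0∞) + 1)⁻¹ N))] x,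
      edist (c N y) (c N x) < δ := by
    have : ContinuousWithinAt (c N) (G ∩ ⋂ j : ℕ, ⋃ N, interior (closure
      (E ((j : ℝ≥0∞) + 1)⁻¹ N))) x := ((hc N) x hx.1).mono inter_subset_left
    exact (EMetric.tendsto_nhds.1 this) δ hδpos
  have h2 : ∀ᶠ y in 𝓝[G ∩ ⋂ j : ℕ, ⋃ N, interior (closure (E ((j : ℝ≥0∞) + 1)⁻¹ N))] x,
      y ∈ interior (closure (E δ N)) :=
    mem_nhdsWithin_of_mem_nhds (isOpen_interior.mem_nhds hN)
  filter_upwards [h1, h2, self_mem_nhdsWithin] with y hy1 hy2 hy3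
  have hyE := hE δ N y hy3.1 (interior_subset hy2)
  have hxE := hE δ N x hx.1 (interior_subset hN)
  calc edist (b y) (b x) ≤ edist (b y) (c N y) + edist (c N y) (c N x) + edist (c N x) (b x) :=
        edist_triangle4 _ _ _ _
    _ ≤ δ + δ + δ := by
        gcongr
        · rw [edist_comm]; exact hb y hyE
        · exact hb x hxE
    _ < ε / 3 + ε / 3 + ε / 3 := by
        have hne : δ + δ ≠ ∞ := by
          rw [hδ]; simp
        gcongr
    _ = ε := ENNReal.add_thirds ε

end Limit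

section Good

variable {X Ω : Type} [TopologicalSpace X] [MeasurableSpace Ω]

/-- a measurable set as an element of the measure algebra -/
def toM (μ : Measure Ω) (A : Set Ω) (hA : MeasurableSet A) : MeasuredSets μ := ⟨A, hA⟩

theorem edist_toM {μ : Measure Ω} {A B : Set Ω} (hA : MeasurableSet A) (hB : MeasurableSet B) :
    edist (toM μ A hA) (toM μ B hB) = μ (A ∆ B) := rfl

/-- A function with measurable sets as values is good if, as a function to the measure algebra, it
is continuous on a residual set. -/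
def Good (μ : Measure Ω) (b : X → Set Ω) : Prop :=
  ∃ hb : ∀ x, MeasurableSet (b x), ∃ G ∈ residual X, ContinuousOn (fun x => toM μ (b x) (hb x)) G

variable {μ : Measure Ω}

theorem Good.meas {b : X → Set Ω} (h : Good μ b) (x : X) : MeasurableSet (b x) := h.1 x

theorem good_of_isLocallyConstant {b : X → Set Ω} (hb : ∀ x, MeasurableSet (b x))
    (h : IsLocallyConstant b) : Good μ b := by
  refine ⟨hb, univ, univ_mem, Continuous.continuousOn ?_⟩
  refine continuous_iff_continuousAt.2 fun x => ?_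
  refine tendsto_nhds_of_eventually_eq ?_
  filter_upwards [(IsLocallyConstant.iff_eventually_eq b).1 h x] with y hy
  exact Subtype.ext hy

theorem Good.union {a b : X → Set Ω} (ha : Good μ a) (hb : Good μ b) :
    Good μ fun x => a x ∪ b x := by
  obtain ⟨ha, G, hG, hGa⟩ := ha
  obtain ⟨hb, H, hH, hHb⟩ := hb
  refine ⟨fun x => (ha x).union (hb x), G ∩ H, inter_mem hG hH, fun x hx => ?_⟩
  have h1' : ContinuousWithinAt (fun x => toM μ (a x) (ha x)) (G ∩ H) x :=
    (hGa x hx.1).mono inter_subset_left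
  have h2' : ContinuousWithinAt (fun x => toM μ (b x) (hb x)) (G ∩ H) x :=
    (hHb x hx.2).mono inter_subset_right
  rw [ContinuousWithinAt, EMetric.tendsto_nhds]
  intro ε hε
  have h1 := (EMetric.tendsto_nhds.1 h1') (ε / 2) (by simpa using hε.ne')
  have h2 := (EMetric.tendsto_nhds.1 h2') (ε / 2) (by simpa using hε.ne')
  filter_upwards [h1, h2] with y hy1 hy2
  rw [edist_toM] at hy1 hy2 ⊢
  calc μ ((a y ∪ b y) ∆ (a x ∪ b x)) ≤ μ ((a y ∆ a x) ∪ (b y ∆ b x)) := by
        apply measure_mono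
        intro ω hω
        simp only [mem_symmDiff, mem_union] at hω ⊢
        tauto
    _ ≤ μ (a y ∆ a x) + μ (b y ∆ b x) := measure_union_le _ _
    _ < ε / 2 + ε / 2 := ENNReal.add_lt_add hy1 hy2
    _ = ε := ENNReal.add_halves ε

theorem Good.compl {a : X → Set Ω} (ha : Good μ a) : Good μ fun x => (a x)ᶜ := by
  obtain ⟨ha, G, hG, hGa⟩ := ha
  refine ⟨fun x => (ha x).compl, G, hG, fun x hx => ?_⟩
  rw [ContinuousWithinAt, EMetric.tendsto_nhds]
  intro ε hε
  have h1 := (EMetric.tendsto_nhds.1 (hGa x hx)) ε hε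
  filter_upwards [h1] with y hy
  rw [edist_toM] at hy ⊢
  have : (a y)ᶜ ∆ (a x)ᶜ = a y ∆ a x := by
    ext ω
    simp only [mem_symmDiff, mem_compl_iff]
    tauto
  rw [this]
  exact hy

theorem Good.inter {a b : X → Set Ω} (ha : Good μ a) (hb : Good μ b) :
    Good μ fun x => a x ∩ b x := by
  have := (ha.compl.union hb.compl).compl
  simpa only [compl_union, compl_compl] using this

theorem Good.sdiff {a b : X → Set Ω} (ha : Good μ a) (hb : Good μ b) :
    Good μ fun x => a x \ b x := by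
  simpa only [sdiff_eq] using ha.inter hb.compl

theorem good_const {A : Set Ω} (hA : MeasurableSet A) : Good μ fun _ : X => A :=
  good_of_isLocallyConstant (fun _ => hA) (IsLocallyConstant.const A)

theorem Good.finsetInter {ι : Type} (s : Finset ι) {a : ι → X → Set Ω}
    (ha : ∀ i ∈ s, Good μ (a i)) : Good μ fun x => ⋂ i ∈ s, a i x := by
  classical
  induction s using Finset.induction_on with
  | empty => simpa using good_const MeasurableSet.univ
  | insert i s hi ih =>
    simp only [Finset.set_biInter_insert]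
    exact (ha i (Finset.mem_insert_self i s)).inter
      (ih fun j hj => ha j (Finset.mem_insert_of_mem hj))

theorem Good.iUnion [BaireSpace X] [IsFiniteMeasure μ] {a : ℕ → X → Set Ω} (ha : ∀ n, Good μ (a n)) :
    Good μ fun x => ⋃ n, a n x := by
  have h1 : ∀ N, Good μ fun x => ⋃ n ∈ Finset.range N, a n x := by
    intro N
    have := (Good.finsetInter (Finset.range N) (a := fun n x => (a n x)ᶜ)
      fun i _ => (ha i).compl).compl
    simpa only [compl_iInter, compl_compl] using this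
  have hm : ∀ x, MeasurableSet (⋃ n, a n x) := fun x => MeasurableSet.iUnion fun n => (ha n).meas x
  choose hb G hG hc using h1
  refine ⟨hm, ?_⟩
  refine residual_of_tendsto (c := fun N x => toM μ _ (hb N x)) (G := ⋂ N, G N)
    (countable_iInter_mem.2 hG) (fun N => (hc N).mono (iInter_subset _ _)) ?_
  intro x _
  rw [EMetric.tendsto_nhds]
  intro ε hε
  have h2 : Tendsto (fun N => μ ((⋃ n, a n x) \ ⋃ n ∈ Finset.range N, a n x)) atTop (𝓝 0) := by
    have h3 := tendsto_measure_iInter_atTop (μ := μ)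
      (s := fun N => (⋃ n, a n x) \ ⋃ n ∈ Finset.range N, a n x)
      (fun N => ((hm x).diff (hb N x)).nullMeasurableSet) (by
        intro N L hNL
        apply sdiff_subset_sdiff_right
        exact biUnion_subset_biUnion_left fun n hn =>
          Finset.mem_coe.2 (Finset.range_subset_range.2 hNL (Finset.mem_coe.1 hn)))
      ⟨0, measure_ne_top _ _⟩
    have h4 : (⋂ N, (⋃ n, a n x) \ ⋃ n ∈ Finset.range N, a n x) = ∅ := by
      ext ω
      simp only [mem_iInter, Set.mem_sdiff, mem_iUnion, Finset.mem_range, mem_empty_iff_false, iff_false]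
      intro h
      obtain ⟨n, hn⟩ := (h 0).1
      exact (h (n + 1)).2 ⟨n, by omega, hn⟩
    rw [h4, measure_empty] at h3
    exact h3
  filter_upwards [(ENNReal.tendsto_nhds_zero.1 h2) (ε / 2) (by simpa using hε.ne')] with N hN
  rw [edist_toM]
  have h5 : μ ((⋃ n ∈ Finset.range N, a n x) ∆ (⋃ n, a n x)) ≤ ε / 2 := by
    refine (measure_mono ?_).trans hN
    intro ω hω
    rcases mem_symmDiff.1 hω with h | h
    · exfalso
      obtain ⟨n, hn⟩ := mem_iUnion.1 h.1
      obtain ⟨-, hn'⟩ := mem_iUnion.1 hn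
      exact h.2 (mem_iUnion.2 ⟨n, hn'⟩)
    · exact h
  rcases eq_or_ne ε ∞ with rfl | hne
  · exact measure_lt_top _ _
  · exact h5.trans_lt (ENNReal.half_lt_self hε.ne' hne)

theorem Good.iInter [BaireSpace X] [IsFiniteMeasure μ] {a : ℕ → X → Set Ω} (ha : ∀ n, Good μ (a n)) :
    Good μ fun x => ⋂ n, a n x := by
  have := (Good.iUnion (fun n => (ha n).compl)).compl
  simpa only [compl_iUnion, compl_compl] using this

/-- The essential supremum of a family of good functions is a countable union. -/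
theorem exists_esssup [Nonempty X] [BaireSpace X] [SecondCountableTopology X] [IsFiniteMeasure μ] {ι : Type}
    [Nonempty ι] {c : ι → X → Set Ω} (hc : ∀ i, Good μ (c i)) :
    ∃ i : ℕ → ι, ∀ j, ∀ᶠ x in residual X, μ (c j x \ ⋃ n, c (i n) x) = 0 := by
  classical
  let B := TopologicalSpace.countableBasis X
  have hB : TopologicalSpace.IsTopologicalBasis B := TopologicalSpace.isBasis_countableBasis X
  have : Countable B := (TopologicalSpace.countable_countableBasis X).to_subtype
  let P : Set X → ℚ → (ℕ → ι) → Prop := fun O q i =>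
    ∀ᶠ x in residual X, x ∈ O → ENNReal.ofReal q ≤ μ (⋃ n, c (i n) x)
  let S : B × ℚ → ℕ → ι := fun w =>
    if h : ∃ i, P w.1.1 w.2 i then h.choose else fun _ => Classical.arbitrary ι
  have hS : ∀ (O : B) (q : ℚ), (∃ i, P O.1 q i) → P O.1 q (S (O, q)) := by
    intro O q h
    simp only [S, dif_pos h]
    exact h.choose_spec
  have hne : Nonempty ((B × ℚ) × ℕ) := by
    obtain ⟨O, hO, -, -⟩ := hB.mem_nhds_iff.1
      (univ_mem : (univ : Set X) ∈ 𝓝 (Classical.arbitrary X))
    exact ⟨((⟨O, hO⟩, 0), 0)⟩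
  obtain ⟨e, he⟩ := exists_surjective_nat ((B × ℚ) × ℕ)
  refine ⟨fun n => S (e n).1 (e n).2, fun j => ?_⟩
  set u : X → Set Ω := fun x => ⋃ n, c (S (e n).1 (e n).2) x with hu
  have hug : Good μ u := Good.iUnion fun n => hc _
  have hSu : ∀ w x, (⋃ n, c (S w n) x) ⊆ u x := by
    intro w x ω hω
    obtain ⟨n, hn⟩ := mem_iUnion.1 hω
    obtain ⟨m, hm⟩ := he (w, n)
    refine mem_iUnion.2 ⟨m, ?_⟩
    rw [hm]
    exact hn
  have hvg := hug.union (hc j)
  by_contra hcon
  obtain ⟨hum, G, hG, hGu⟩ := hug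
  obtain ⟨hvm, H, hH, hHv⟩ := hvg
  have h1 : ∃ x ∈ G ∩ H, μ (c j x \ u x) ≠ 0 := by
    by_contra hcon'
    push Not at hcon'
    exact hcon (mem_of_superset (inter_mem hG hH) hcon')
  obtain ⟨x, hx, hx'⟩ := h1
  have h2 : μ (u x) < μ (u x ∪ c j x) := by
    have h3 : μ (u x ∪ c j x) = μ (u x) + μ (c j x \ u x) := by
      rw [← union_sdiff_self, measure_union disjoint_sdiff_self_right (((hc j).meas x).diff (hum x))]
    rw [h3]
    exact ENNReal.lt_add_right (measure_ne_top _ _) hx'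
  obtain ⟨q, hq1, hq2⟩ : ∃ q : ℚ, μ (u x) < ENNReal.ofReal q ∧ ENNReal.ofReal q < μ (u x ∪ c j x) := by
    obtain ⟨q, -, h3, h4⟩ := ENNReal.lt_iff_exists_rat_btwn.1 h2
    exact ⟨q, h3, h4⟩
  have hcu : ∀ᶠ y in 𝓝[G ∩ H] x, μ (u y) < ENNReal.ofReal q := by
    have h3 : ContinuousWithinAt (fun y => toM μ (u y) (hum y)) (G ∩ H) x :=
      (hGu x hx.1).mono inter_subset_left
    exact ((MeasuredSets.continuous_measure.tendsto _).comp h3).eventually_lt_const hq1
  have hcv : ∀ᶠ y in 𝓝[G ∩ H] x, ENNReal.ofReal q < μ (u y ∪ c j y) := by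
    have h3 : ContinuousWithinAt (fun y => toM μ (u y ∪ c j y) (hvm y)) (G ∩ H) x :=
      (hHv x hx.2).mono inter_subset_right
    exact ((MeasuredSets.continuous_measure.tendsto _).comp h3).eventually_const_lt hq2
  obtain ⟨O', hO', hO'2⟩ := mem_nhdsWithin_iff_exists_mem_nhds_inter.1 (hcu.and hcv)
  obtain ⟨O, hO, hxO, hOO'⟩ := hB.mem_nhds_iff.1 hO'
  have h5 : P O q (fun n => if n = 0 then j else S (e (n - 1)).1 (e (n - 1)).2) := by
    filter_upwards [inter_mem hG hH] with y hy hyO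
    refine (hO'2 ⟨hOO' hyO, hy⟩).2.le.trans (measure_mono ?_)
    rintro ω (hω | hω)
    · obtain ⟨n, hn⟩ := mem_iUnion.1 hω
      exact mem_iUnion.2 ⟨n + 1, by simpa using hn⟩
    · exact mem_iUnion.2 ⟨0, by simpa using hω⟩
  have h6 := hS ⟨O, hO⟩ q ⟨_, h5⟩
  obtain ⟨y, hy, hyO⟩ : ∃ y, y ∈ (G ∩ H) ∩ {y | y ∈ O → ENNReal.ofReal q ≤
      μ (⋃ n, c (S (⟨O, hO⟩, q) n) y)} ∧ y ∈ O := by
    have h7 := dense_of_mem_residual (inter_mem (inter_mem hG hH) h6)
    obtain ⟨y, hy, hy'⟩ := h7.exists_mem_open (hB.isOpen hO) ⟨x, hxO⟩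
    exact ⟨y, hy, hy'⟩
  have h8 := hy.2 hyO
  have h9 := (hO'2 ⟨hOO' hyO, hy.1⟩).1
  exact absurd (h8.trans (measure_mono (hSu _ y))) (not_le.2 h9)

end Good

end Pool.Agent.R582.ZZ
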