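import Mathlib
import Pool.Agent.R582.ZZ.Good

set_option autoImplicit false

/-!
# The construction of the points
-/

namespace Pool.Agent.R582.ZZ

open Cardinal Set Filter Topology MeasureTheory
open scoped ENNReal symmDiff

section

variable {X Ω : Type} [TopologicalSpace X] [MeasurableSpace Ω] {μ : Measure Ω}
variable {K : Type}

theorem ae_imp_iff {A B : Set Ω} : (∀ᵐ ω ∂μ, ω ∈ A → ω ∈ B) ↔ μ (A \ B) = 0 := by
  rw [ae_iff]
  have : {ω | ¬ (ω ∈ A → ω ∈ B)} = A \ B := by
    ext ω
    simp
  rw [this]

/-- the Boolean combination of the values of `Y` given by `σ` -/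
def pw (Y : K → X → Set Ω) (σ : Finset (K × Bool)) (x : X) : Set Ω :=
  ⋂ q ∈ σ, if q.2 = true then Y q.1 x else (Y q.1 x)ᶜ

theorem mem_pw {Y : K → X → Set Ω} {σ : Finset (K × Bool)} {x : X} {ω : Ω} :
    ω ∈ pw Y σ x ↔ ∀ q ∈ σ, (ω ∈ Y q.1 x ↔ q.2 = true) := by
  simp only [pw, mem_iInter]
  refine forall₂_congr fun q _ => ?_
  by_cases h : q.2 = true
  · simp [h]
  · simp [h]

theorem good_pw {Y : K → X → Set Ω} {σ : Finset (K × Bool)} (h : ∀ q ∈ σ, Good μ (Y q.1)) :
    Good μ (pw Y σ) := by
  refine Good.finsetInter σ (a := fun q x => if q.2 = true then Y q.1 x else (Y q.1 x)ᶜ) ?_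
  intro q hq
  by_cases h' : q.2 = true
  · simpa [h'] using h q hq
  · simpa [h'] using (h q hq).compl

theorem pw_congr {Y Y' : K → X → Set Ω} {σ : Finset (K × Bool)} (h : ∀ q ∈ σ, Y q.1 = Y' q.1) :
    pw Y σ = pw Y' σ := by
  ext x ω
  simp only [mem_pw]
  exact forall₂_congr fun q hq => by rw [h q hq]

variable [LinearOrder K] [WellFoundedLT K] [Nonempty X] [BaireSpace X] [SecondCountableTopology X]
  [IsFiniteMeasure μ]

/-- the recursive construction -/
theorem exists_rec (R : Finset (K × Bool) → X → Set Ω) (hR : ∀ σ, Good μ (R σ)) :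
    ∃ Y : K → X → Set Ω, (∀ k, Good μ (Y k)) ∧
      ∀ k, ∃ i : ℕ → {σ : Finset (K × Bool) // ∀ q ∈ σ, q.1 < k},
        (∀ x, (Y k x)ᶜ = ⋃ n, pw Y (i n).1 x \ R (insert (k, true) (i n).1) x) ∧
        ∀ σ : {σ : Finset (K × Bool) // ∀ q ∈ σ, q.1 < k}, ∀ᶠ x in residual X,
          μ ((pw Y σ.1 x \ R (insert (k, true) σ.1) x) \ (Y k x)ᶜ) = 0 := by
  classical
  have hF : ∀ (k : K) (Y : K → X → Set Ω), ∃ y : X → Set Ω, (∀ j, Good μ (Y j)) →
      Good μ y ∧ ∃ i : ℕ → {σ : Finset (K × Bool) // ∀ q ∈ σ, q.1 < k},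
        (∀ x, (y x)ᶜ = ⋃ n, pw Y (i n).1 x \ R (insert (k, true) (i n).1) x) ∧
        ∀ σ : {σ : Finset (K × Bool) // ∀ q ∈ σ, q.1 < k}, ∀ᶠ x in residual X,
          μ ((pw Y σ.1 x \ R (insert (k, true) σ.1) x) \ (y x)ᶜ) = 0 := by
    intro k Y
    by_cases hY : ∀ j, Good μ (Y j)
    · have : Nonempty {σ : Finset (K × Bool) // ∀ q ∈ σ, q.1 < k} := ⟨⟨∅, by simp⟩⟩
      have hc : ∀ σ : {σ : Finset (K × Bool) // ∀ q ∈ σ, q.1 < k},
          Good μ (fun x => pw Y σ.1 x \ R (insert (k, true) σ.1) x) := fun σ =>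
        (good_pw fun q _ => hY q.1).sdiff (hR _)
      obtain ⟨i, hi⟩ := exists_esssup hc
      refine ⟨fun x => (⋃ n, pw Y (i n).1 x \ R (insert (k, true) (i n).1) x)ᶜ, fun _ =>
        ⟨(Good.iUnion fun n => hc (i n)).compl, i, fun x => compl_compl _, fun σ => ?_⟩⟩
      simp only [compl_compl]
      exact hi σ
    · exact ⟨fun _ => ∅, fun h => absurd h hY⟩
  choose F hF using hF
  have wf : WellFounded ((· < ·) : K → K → Prop) := wellFounded_lt
  obtain ⟨Y, hY⟩ : ∃ Y : K → X → Set Ω, ∀ k, Y k = F k (fun j => if j < k then Y j else fun _ => ∅) := by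
    let G : (k : K) → ((j : K) → j < k → X → Set Ω) → X → Set Ω := fun k h =>
      F k (fun j => if hj : j < k then h j hj else fun _ => ∅)
    refine ⟨wf.fix G, fun k => ?_⟩
    rw [wf.fix_eq]
    rfl
  have hgood : ∀ k, Good μ (Y k) := by
    intro k
    induction k using wf.induction with
    | _ k ih =>
      rw [hY k]
      refine (hF k _ ?_).1
      intro j
      split_ifs with hj
      · exact ih j hj
      · exact good_const MeasurableSet.empty
  refine ⟨Y, hgood, fun k => ?_⟩
  have h1 := (hF k (fun j => if j < k then Y j else fun _ => ∅) (by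
    intro j
    split_ifs with hj
    · exact hgood j
    · exact good_const MeasurableSet.empty)).2
  rw [← hY k] at h1
  have h2 : ∀ σ : {σ : Finset (K × Bool) // ∀ q ∈ σ, q.1 < k},
      pw (fun j => if j < k then Y j else fun _ => ∅) σ.1 = pw Y σ.1 := fun σ =>
    pw_congr fun q hq => if_pos (σ.2 q hq)
  simpa only [h2] using h1

/-- the main claim about the construction -/
theorem rec_claim {R : Finset (K × Bool) → X → Set Ω} {Y : K → X → Set Ω}
    (hY : ∀ k, ∃ i : ℕ → {σ : Finset (K × Bool) // ∀ q ∈ σ, q.1 < k},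
        (∀ x, (Y k x)ᶜ = ⋃ n, pw Y (i n).1 x \ R (insert (k, true) (i n).1) x) ∧
        ∀ σ : {σ : Finset (K × Bool) // ∀ q ∈ σ, q.1 < k}, ∀ᶠ x in residual X,
          μ ((pw Y σ.1 x \ R (insert (k, true) σ.1) x) \ (Y k x)ᶜ) = 0)
    (h0 : ∀ x, ∀ᵐ ω ∂μ, ω ∈ R ∅ x)
    (hmono : ∀ σ τ, σ ⊆ τ → ∀ x, ∀ᵐ ω ∂μ, ω ∈ R τ x → ω ∈ R σ x)
    (hext : ∀ σ k x, ∀ᵐ ω ∂μ, ω ∈ R σ x →
      ω ∈ R (insert (k, false) σ) x ∨ ω ∈ R (insert (k, true) σ) x) (τ : Finset (K × Bool)) :
    ∀ᶠ x in residual X, ∀ᵐ ω ∂μ, ω ∈ pw Y τ x → ω ∈ R τ x := by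
  classical
  have below : ∀ k, (∀ j < k, ∀ τ : Finset (K × Bool), (∀ q ∈ τ, q.1 ≤ j) →
      ∀ᶠ x in residual X, ∀ᵐ ω ∂μ, ω ∈ pw Y τ x → ω ∈ R τ x) →
      ∀ τ : Finset (K × Bool), (∀ q ∈ τ, q.1 < k) →
      ∀ᶠ x in residual X, ∀ᵐ ω ∂μ, ω ∈ pw Y τ x → ω ∈ R τ x := by
    intro k hk τ hτ
    rcases τ.eq_empty_or_nonempty with rfl | hne
    · refine Eventually.of_forall fun x => ?_
      filter_upwards [h0 x] with ω hω _
      exact hω
    · obtain ⟨q, hq, hq'⟩ := Finset.exists_max_image τ Prod.fst hne
      exact hk q.1 (hτ q hq) τ hq'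
  have key : ∀ k, ∀ τ : Finset (K × Bool), (∀ q ∈ τ, q.1 ≤ k) →
      ∀ᶠ x in residual X, ∀ᵐ ω ∂μ, ω ∈ pw Y τ x → ω ∈ R τ x := by
    intro k
    induction k using (wellFounded_lt : WellFounded ((· < ·) : K → K → Prop)).induction with
    | _ k ih =>
      intro τ hτ
      have hbel := below k ih
      set τ' := τ.filter fun q => q.1 < k with hτ'
      have hτ'k : ∀ q ∈ τ', q.1 < k := fun q hq => (Finset.mem_filter.1 hq).2
      have hτ's : τ' ⊆ τ := Finset.filter_subset _ _
      have hcases : ∀ q ∈ τ, q ∈ τ' ∨ q = (k, false) ∨ q = (k, true) := by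
        rintro ⟨j, i⟩ hq
        rcases (hτ _ hq).lt_or_eq with h | h
        · exact Or.inl (Finset.mem_filter.2 ⟨hq, h⟩)
        · right
          simp only at h
          subst h
          cases i <;> simp
      obtain ⟨i, hi, hi'⟩ := hY k
      by_cases ht : (k, true) ∈ τ
      · by_cases hf : (k, false) ∈ τ
        · refine Eventually.of_forall fun x => Eventually.of_forall fun ω hω => ?_
          rw [mem_pw] at hω
          have h1 := hω _ ht
          have h2 := hω _ hf
          simp at h1 h2
          exact absurd h1 h2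
        · have hτe : τ = insert (k, true) τ' := by
            ext q
            rw [Finset.mem_insert]
            constructor
            · intro hq
              rcases hcases q hq with h | rfl | rfl
              · exact Or.inr h
              · exact absurd hq hf
              · exact Or.inl rfl
            · rintro (rfl | h)
              · exact ht
              · exact hτ's h
          filter_upwards [hi' ⟨τ', hτ'k⟩] with x hx
          rw [← ae_imp_iff] at hx
          filter_upwards [hx] with ω hω hωτ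
          rw [hτe] at hωτ ⊢
          by_contra hcon
          rw [mem_pw] at hωτ
          refine hω ⟨mem_pw.2 fun q hq => hωτ q (Finset.mem_insert_of_mem hq), hcon⟩ ?_
          exact (hωτ _ (Finset.mem_insert_self _ _)).2 rfl
      · by_cases hf : (k, false) ∈ τ
        · have hτe : τ = insert (k, false) τ' := by
            ext q
            rw [Finset.mem_insert]
            constructor
            · intro hq
              rcases hcases q hq with h | rfl | rfl
              · exact Or.inr h
              · exact Or.inl rfl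
              · exact absurd hq ht
            · rintro (rfl | h)
              · exact hf
              · exact hτ's h
          have h1 : ∀ᶠ x in residual X, ∀ n, ∀ᵐ ω ∂μ,
              ω ∈ pw Y (τ' ∪ (i n).1) x → ω ∈ R (τ' ∪ (i n).1) x := by
            rw [eventually_countable_forall]
            intro n
            refine hbel _ fun q hq => ?_
            rcases Finset.mem_union.1 hq with h | h
            · exact hτ'k q h
            · exact (i n).2 q h
          filter_upwards [h1] with x hx
          have h2 : ∀ᵐ ω ∂μ, ∀ n, (ω ∈ pw Y (τ' ∪ (i n).1) x → ω ∈ R (τ' ∪ (i n).1) x) ∧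
              (ω ∈ R (τ' ∪ (i n).1) x → ω ∈ R (insert (k, false) (τ' ∪ (i n).1)) x ∨
                ω ∈ R (insert (k, true) (τ' ∪ (i n).1)) x) ∧
              (ω ∈ R (insert (k, false) (τ' ∪ (i n).1)) x → ω ∈ R (insert (k, false) τ') x) ∧
              (ω ∈ R (insert (k, true) (τ' ∪ (i n).1)) x → ω ∈ R (insert (k, true) (i n).1) x) := by
            rw [ae_all_iff]
            intro n
            filter_upwards [hx n, hext (τ' ∪ (i n).1) k x,
              hmono (insert (k, false) τ') (insert (k, false) (τ' ∪ (i n).1))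
                (Finset.insert_subset_insert _ Finset.subset_union_left) x,
              hmono (insert (k, true) (i n).1) (insert (k, true) (τ' ∪ (i n).1))
                (Finset.insert_subset_insert _ Finset.subset_union_right) x] with ω h1 h2 h3 h4
            exact ⟨h1, h2, h3, h4⟩
          filter_upwards [h2] with ω hω hωτ
          rw [hτe] at hωτ ⊢
          rw [mem_pw] at hωτ
          have h3 : ω ∈ (Y k x)ᶜ := by
            have := hωτ _ (Finset.mem_insert_self _ _)
            simpa using this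
          rw [hi x, mem_iUnion] at h3
          obtain ⟨n, hn, hn'⟩ := h3
          obtain ⟨g1, g2, g3, g4⟩ := hω n
          rw [mem_pw] at hn
          have h4 : ω ∈ pw Y (τ' ∪ (i n).1) x := by
            rw [mem_pw]
            intro q hq
            rcases Finset.mem_union.1 hq with h | h
            · exact hωτ q (Finset.mem_insert_of_mem h)
            · exact hn q h
          rcases g2 (g1 h4) with h5 | h5
          · exact g3 h5
          · exact absurd (g4 h5) hn'
        · have hτe : τ = τ' := by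
            apply subset_antisymm _ hτ's
            intro q hq
            rcases hcases q hq with h | rfl | rfl
            · exact h
            · exact absurd hq hf
            · exact absurd hq ht
          rw [hτe]
          exact hbel τ' hτ'k
  rcases τ.eq_empty_or_nonempty with rfl | hne
  · refine Eventually.of_forall fun x => ?_
    filter_upwards [h0 x] with ω hω _
    exact hω
  · obtain ⟨q, hq, hq'⟩ := Finset.exists_max_image τ Prod.fst hne
    exact key q.1 τ hq'

end

end Pool.Agent.R582.ZZ
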