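import Mathlib
import Pool.Agent.R582.ZZ.Core

set_option autoImplicit false

/-!
# The construction of the points: conclusion
-/

namespace Pool.Agent.R582.ZZ

open Cardinal Set Filter Topology MeasureTheory
open scoped ENNReal symmDiff

/-- Any family, indexed by `ι`, of dense open subsets of the Cantor space has dense intersection. -/
def CovCat (ι : Type) : Prop :=
  ∀ D : ι → Set (ℕ → Bool), (∀ i, IsOpen (D i)) → (∀ i, Dense (D i)) → Dense (⋂ i, D i)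

/-- Any family, indexed by `ι`, of functions is bounded by one function modulo finite sets. -/
def Bounded (ι : Type) : Prop :=
  ∀ f : ι → ℕ → ℕ, ∃ g : ℕ → ℕ, ∀ i, ∃ N, ∀ n, N ≤ n → f i n ≤ g n

variable {Ω : Type} [MeasurableSpace Ω] {μ : Measure Ω} {K : Type}

theorem dense_inter {ι : Type} (h : CovCat (ι × ℕ)) {G : ι → Set (ℕ → Bool)}
    (hG : ∀ i, G i ∈ residual (ℕ → Bool)) : Dense (⋂ i, G i) := by
  have h1 : ∀ i, ∃ D : ℕ → Set (ℕ → Bool), (∀ n, IsOpen (D n)) ∧ (∀ n, Dense (D n)) ∧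
      (⋂ n, D n) ⊆ G i := by
    intro i
    obtain ⟨t, htG, htδ, htd⟩ := mem_residual.1 (hG i)
    obtain ⟨D, hD, hDt⟩ := isGδ_iff_eq_iInter_nat.1 htδ
    exact ⟨D, hD, fun n => htd.mono (by rw [hDt]; exact iInter_subset _ _), by rw [← hDt]; exact htG⟩
  choose D hD1 hD2 hD3 using h1
  refine (h (fun p => D p.1 p.2) (fun p => hD1 _ _) (fun p => hD2 _ _)).mono ?_
  intro x hx
  rw [mem_iInter] at hx ⊢
  intro i
  exact hD3 i (mem_iInter.2 fun n => hx (i, n))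

theorem exists_points [IsFiniteMeasure μ] (hcov : CovCat ((K ⊕ Finset (K × Bool)) × ℕ))
    (hb : Bounded K) {R : Finset (K × Bool) → (ℕ → Bool) → Set Ω} {Y : K → (ℕ → Bool) → Set Ω}
    (hY : ∀ k, Good μ (Y k))
    (hR : ∀ τ, ∀ᶠ x in residual (ℕ → Bool), ∀ᵐ ω ∂μ, ω ∈ pw Y τ x → ω ∈ R τ x) :
    ∃ (x : ℕ → Bool) (a : ℕ → ℕ → Bool), (∀ n τ, ∀ᵐ ω ∂μ, ω ∈ pw Y τ (a n) → ω ∈ R τ (a n)) ∧
      (∀ n n', n ≠ n' → a n ≠ a n') ∧
      ∀ k, ∀ᵐ ω ∂μ, ∃ N, ∀ n, N ≤ n → (ω ∈ Y k (a n) ↔ ω ∈ Y k x) := by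
  classical
  choose hYm G hG hGc using hY
  have hC := dense_inter hcov (G := fun i => match i with
    | Sum.inl k => G k
    | Sum.inr τ => {x | ∀ᵐ ω ∂μ, ω ∈ pw Y τ x → ω ∈ R τ x}) (by
      rintro (k | τ)
      · exact hG k
      · exact hR τ)
  set C := ⋂ i : K ⊕ Finset (K × Bool), (match i with
    | Sum.inl k => G k
    | Sum.inr τ => {x | ∀ᵐ ω ∂μ, ω ∈ pw Y τ x → ω ∈ R τ x}) with hCdef
  have hCG : ∀ x ∈ C, ∀ k, x ∈ G k := fun x hx k => mem_iInter.1 hx (Sum.inl k)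
  have hCR : ∀ x ∈ C, ∀ τ, ∀ᵐ ω ∂μ, ω ∈ pw Y τ x → ω ∈ R τ x := fun x hx τ =>
    mem_iInter.1 hx (Sum.inr τ)
  obtain ⟨x, hx⟩ := hC.nonempty
  have h1 : ∀ (k : K) (n : ℕ), ∃ m, ∀ y ∈ C, (∀ i < m, y i = x i) →
      μ (Y k y ∆ Y k x) < (2 : ℝ≥0∞)⁻¹ ^ n := by
    intro k n
    have h2 : ContinuousWithinAt (fun x => toM μ (Y k x) (hYm k x)) C x :=
      (hGc k x (hCG x hx k)).mono fun y hy => hCG y hy k
    have h3 := (EMetric.tendsto_nhds.1 h2) ((2 : ℝ≥0∞)⁻¹ ^ n) (ENNReal.pow_pos (by simp) n)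
    obtain ⟨O, hO, hO2⟩ := mem_nhdsWithin_iff_exists_mem_nhds_inter.1 h3
    obtain ⟨m, hm⟩ : ∃ m, PiNat.cylinder x m ⊆ O := by
      obtain ⟨s, ⟨y, m, rfl⟩, hxs, hsO⟩ := (PiNat.isTopologicalBasis_cylinders (fun _ : ℕ => Bool)).mem_nhds_iff.1 hO
      refine ⟨m, ?_⟩
      rwa [← PiNat.mem_cylinder_iff_eq.1 hxs] at hsO
    refine ⟨m, fun y hy hyx => ?_⟩
    exact hO2 ⟨hm (PiNat.mem_cylinder_iff.2 hyx), hy⟩
  choose f hf using h1
  obtain ⟨g, hg⟩ := hb f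
  let g' : ℕ → ℕ := fun n => (∑ i ∈ Finset.range (n + 1), g i) + n
  have hg' : StrictMono g' := by
    refine strictMono_nat_of_lt_succ fun n => ?_
    simp only [g']
    rw [Finset.sum_range_succ _ (n + 1)]
    omega
  have hgg : ∀ n, g n ≤ g' n := by
    intro n
    simp only [g']
    have := Finset.single_le_sum (f := g) (s := Finset.range (n + 1)) (fun i _ => Nat.zero_le _)
      (Finset.self_mem_range_succ n)
    omega
  have h2 : ∀ n, ∃ y ∈ C, (∀ i < g' n, y i = x i) ∧ y (g' n) ≠ x (g' n) := by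
    intro n
    have ho : IsOpen (PiNat.cylinder (Function.update x (g' n) (!x (g' n))) (g' n + 1)) :=
      PiNat.isOpen_cylinder _ _ _
    obtain ⟨y, hyC, hy⟩ := hC.exists_mem_open ho ⟨_, PiNat.self_mem_cylinder _ _⟩
    rw [PiNat.mem_cylinder_iff] at hy
    refine ⟨y, hyC, fun i hi => ?_, ?_⟩
    · rw [hy i (by omega), Function.update_of_ne (by omega)]
    · rw [hy _ (by omega), Function.update_self]
      simp
  choose a haC ha1 ha2 using h2
  refine ⟨x, a, fun n τ => hCR _ (haC n) τ, ?_, ?_⟩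
  · have hlt : ∀ n n', n < n' → a n ≠ a n' := by
      intro n n' h he
      apply ha2 n
      rw [he]
      exact ha1 n' _ (hg' h)
    intro n n' hne
    rcases lt_or_gt_of_ne hne with h | h
    · exact hlt n n' h
    · exact (hlt n' n h).symm
  · intro k
    obtain ⟨N, hN⟩ := hg k
    have h3 : ∀ n, μ (if N ≤ n then Y k (a n) ∆ Y k x else ∅) ≤ (2 : ℝ≥0∞)⁻¹ ^ n := by
      intro n
      split_ifs with h
      · exact (hf k n (a n) (haC n) fun i hi => ha1 n i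
          (hi.trans_le ((hN n h).trans (hgg n)))).le
      · simp
    have h4 : ∑' n, μ (if N ≤ n then Y k (a n) ∆ Y k x else ∅) ≠ ∞ := by
      refine ne_top_of_le_ne_top ?_ (ENNReal.tsum_le_tsum h3)
      rw [ENNReal.tsum_geometric]
      simp
    filter_upwards [ae_eventually_notMem h4] with ω hω
    obtain ⟨N', hN'⟩ := eventually_atTop.1 hω
    refine ⟨max N N', fun n hn => ?_⟩
    have h5 := hN' n ((le_max_right _ _).trans hn)
    rw [if_pos ((le_max_left _ _).trans hn), mem_symmDiff] at h5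
    tauto

/-- the initial segment of length `m` of `x` -/
def seg (x : ℕ → Bool) (m : ℕ) : Finset ℕ := (Finset.range m).filter fun i => x i = true

theorem mem_seg {x : ℕ → Bool} {m i : ℕ} (h : i < m) : i ∈ seg x m ↔ x i = true := by
  simp [seg, h]

theorem exists_core [LinearOrder K] [WellFoundedLT K] [IsFiniteMeasure μ]
    (hcov : CovCat ((K ⊕ Finset (K × Bool)) × ℕ)) (hb : Bounded K)
    (A : Finset (K × Bool) → ℕ → Finset ℕ → Set Ω) (hA : ∀ σ m s, MeasurableSet (A σ m s))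
    (h1 : ∀ σ τ m s, σ ⊆ τ → ∀ᵐ ω ∂μ, ω ∈ A τ m s → ω ∈ A σ m s)
    (h2 : ∀ σ m m' s s', (m ≤ m' ∧ ∀ i < m, (i ∈ s ↔ i ∈ s')) →
      ∀ᵐ ω ∂μ, ω ∈ A σ m' s' → ω ∈ A σ m s)
    (h3 : ∀ σ m s k, ∀ᵐ ω ∂μ, ω ∈ A σ m s → ω ∈ A (insert (k, false) σ) m s ∨
      ω ∈ A (insert (k, true) σ) m s)
    (h4 : ∀ m s, ∀ᵐ ω ∂μ, ω ∈ A ∅ m s) :
    ∃ (Z : ℕ → K → Set Ω) (a : ℕ → ℕ → Bool), (∀ n k, MeasurableSet (Z n k)) ∧
      (∀ n σ m s, (∀ i < m, (a n i = true ↔ i ∈ s)) →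
        ∀ᵐ ω ∂μ, (∀ q ∈ σ, (ω ∈ Z n q.1 ↔ q.2 = true)) → ω ∈ A σ m s) ∧
      (∀ n n', n ≠ n' → a n ≠ a n') ∧
      ∀ k, ∀ᵐ ω ∂μ, (∃ N, ∀ n, N ≤ n → ω ∈ Z n k) ∨ (∃ N, ∀ n, N ≤ n → ω ∉ Z n k) := by
  classical
  let R : Finset (K × Bool) → (ℕ → Bool) → Set Ω := fun σ x => ⋂ m, A σ m (seg x m)
  have hR : ∀ σ, Good μ (R σ) := by
    intro σ
    refine Good.iInter fun m => good_of_isLocallyConstant (fun x => hA _ _ _) ?_
    rw [IsLocallyConstant.iff_eventually_eq]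
    intro x
    filter_upwards [(PiNat.isOpen_cylinder (fun _ : ℕ => Bool) x m).mem_nhds
      (PiNat.self_mem_cylinder x m)] with y hy
    have : seg y m = seg x m := by
      ext i
      simp only [seg, Finset.mem_filter, Finset.mem_range]
      refine and_congr_right fun hi => ?_
      rw [PiNat.mem_cylinder_iff.1 hy i hi]
    rw [this]
  obtain ⟨Y, hY, hYR⟩ := exists_rec R hR
  have hclaim := rec_claim hYR (by
      intro x
      filter_upwards [ae_all_iff.2 fun m => h4 m (seg x m)] with ω hω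
      exact mem_iInter.2 hω) (by
      intro σ τ hστ x
      filter_upwards [ae_all_iff.2 fun m => h1 σ τ m (seg x m) hστ] with ω hω hωR
      exact mem_iInter.2 fun m => hω m (mem_iInter.1 hωR m)) (by
      intro σ k x
      filter_upwards [ae_all_iff.2 fun m => h3 σ m (seg x m) k,
        ae_all_iff.2 fun p : ℕ × ℕ => h2 (insert (k, false) σ) p.1 (p.1 + p.2) (seg x p.1)
          (seg x (p.1 + p.2)) ⟨by omega, fun i hi => by
            rw [mem_seg hi, mem_seg (by omega : i < p.1 + p.2)]⟩,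
        ae_all_iff.2 fun p : ℕ × ℕ => h2 (insert (k, true) σ) p.1 (p.1 + p.2) (seg x p.1)
          (seg x (p.1 + p.2)) ⟨by omega, fun i hi => by
            rw [mem_seg hi, mem_seg (by omega : i < p.1 + p.2)]⟩] with ω g1 g2 g3 hω
      by_contra hcon
      push Not at hcon
      obtain ⟨c1, c2⟩ := hcon
      simp only [R, mem_iInter, not_forall] at c1 c2
      obtain ⟨m, hm⟩ := c1
      obtain ⟨m', hm'⟩ := c2
      rcases g1 (m + m') (mem_iInter.1 hω (m + m')) with g | g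
      · exact hm (g2 (m, m') g)
      · rw [add_comm] at g
        exact hm' (g3 (m', m) g))
  obtain ⟨x, a, ha1, ha2, ha3⟩ := exists_points hcov hb hY hclaim
  refine ⟨fun n k => Y k (a n), a, fun n k => (hY k).meas _, ?_, ha2, ?_⟩
  · intro n σ m s hs
    filter_upwards [ha1 n σ, h2 σ m m s (seg (a n) m) ⟨le_rfl, fun i hi => by
      rw [mem_seg hi, hs i hi]⟩] with ω g1 g2 hω
    exact g2 (mem_iInter.1 (g1 (mem_pw.2 hω)) m)
  · intro k
    filter_upwards [ha3 k] with ω hω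
    obtain ⟨N, hN⟩ := hω
    by_cases h : ω ∈ Y k x
    · exact Or.inl ⟨N, fun n hn => (hN n hn).2 h⟩
    · exact Or.inr ⟨N, fun n hn h' => h ((hN n hn).1 h')⟩

end Pool.Agent.R582.ZZ
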