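import Mathlib
import Pool.Agent.R582.ZZ.End

set_option autoImplicit false

/-!
# Consequences of Martin's axiom
-/

namespace Pool.Agent.R582.ZZ

open Cardinal Set Filter Topology

/-- Martin's axiom: for every nonempty preordered set `P` in which every set of pairwise incompatible
elements is countable, and every family `𝒟` of fewer than `𝔠` dense subsets of `P`, there is a
filter in `P` which meets all elements of `𝒟`. -/
def MartinAxiom : Prop :=
  ∀ (P : Type) [Preorder P] [Nonempty P],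
    (∀ A : Set P, (∀ p ∈ A, ∀ q ∈ A, p ≠ q → ¬ ∃ r : P, r ≤ p ∧ r ≤ q) → A.Countable) →
    ∀ 𝒟 : Set (Set P), #𝒟 < 𝔠 → (∀ D ∈ 𝒟, ∀ p : P, ∃ q ∈ D, q ≤ p) →
      ∃ G : Set P, G.Nonempty ∧ (∀ p ∈ G, ∀ q : P, p ≤ q → q ∈ G) ∧
        (∀ p ∈ G, ∀ q ∈ G, ∃ r ∈ G, r ≤ p ∧ r ≤ q) ∧ ∀ D ∈ 𝒟, (G ∩ D).Nonempty

/-- the version for indexed families -/
theorem MartinAxiom.exists_filter (h : MartinAxiom) {P : Type} [Preorder P] [Nonempty P]
    (hP : ∀ A : Set P, (∀ p ∈ A, ∀ q ∈ A, p ≠ q → ¬ ∃ r : P, r ≤ p ∧ r ≤ q) → A.Countable)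
    {ι : Type} (hι : #ι < 𝔠) (D : ι → Set P) (hD : ∀ i p, ∃ q ∈ D i, q ≤ p) :
    ∃ G : Set P, G.Nonempty ∧ (∀ p ∈ G, ∀ q : P, p ≤ q → q ∈ G) ∧
        (∀ p ∈ G, ∀ q ∈ G, ∃ r ∈ G, r ≤ p ∧ r ≤ q) ∧ ∀ i, ∃ p ∈ G, p ∈ D i := by
  obtain ⟨G, h1, h2, h3, h4⟩ := h P hP (range D) (Cardinal.mk_range_le.trans_lt hι) (by
    rintro _ ⟨i, rfl⟩ p
    exact hD i p)
  exact ⟨G, h1, h2, h3, fun i => h4 _ ⟨i, rfl⟩⟩

theorem MartinAxiom.covCat (h : MartinAxiom) {ι : Type} (hι : #ι < 𝔠) : CovCat ι := by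
  intro D hDo hDd
  rw [dense_iff_inter_open]
  intro U hU hUne
  let P : Type := {V : Set (ℕ → Bool) // IsOpen V ∧ V.Nonempty ∧ closure V ⊆ U}
  have hreg : ∀ V : Set (ℕ → Bool), IsOpen V → V.Nonempty →
      ∃ W : Set (ℕ → Bool), IsOpen W ∧ W.Nonempty ∧ closure W ⊆ V := by
    rintro V hV ⟨x, hx⟩
    obtain ⟨W, hW1, hW2, hW3⟩ := exists_mem_nhds_isClosed_subset (hV.mem_nhds hx)
    refine ⟨interior W, isOpen_interior, ⟨x, mem_interior_iff_mem_nhds.2 hW1⟩, ?_⟩
    exact (hW2.closure_subset_iff.2 interior_subset).trans hW3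
  have hPne : Nonempty P := by
    obtain ⟨W, h1, h2, h3⟩ := hreg U hU hUne
    exact ⟨⟨W, h1, h2, h3⟩⟩
  have hccc : ∀ A : Set P, (∀ p ∈ A, ∀ q ∈ A, p ≠ q → ¬ ∃ r : P, r ≤ p ∧ r ≤ q) → A.Countable := by
    intro A hA
    refine Set.PairwiseDisjoint.countable_of_isOpen (s := fun p : P => p.1) (a := A) ?_
      (fun p _ => p.2.1) (fun p _ => p.2.2.1)
    intro p hp q hq hne
    by_contra hcon
    rw [Function.onFun, Set.not_disjoint_iff] at hcon
    obtain ⟨x, hx, hx'⟩ := hcon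
    exact hA p hp q hq hne ⟨⟨p.1 ∩ q.1, p.2.1.inter q.2.1, ⟨x, hx, hx'⟩,
      (closure_mono inter_subset_left).trans p.2.2.2⟩, inter_subset_left, inter_subset_right⟩
  obtain ⟨G, hG1, hG2, hG3, hG4⟩ := h.exists_filter hccc hι (fun i => {p : P | closure p.1 ⊆ D i}) (by
    intro i p
    have h1 : (p.1 ∩ D i).Nonempty := (hDd i).inter_open_nonempty _ p.2.1 p.2.2.1
    obtain ⟨W, h2, h3, h4⟩ := hreg _ (p.2.1.inter (hDo i)) h1
    refine ⟨⟨W, h2, h3, (h4.trans inter_subset_left).trans (subset_closure.trans p.2.2.2)⟩, ?_, ?_⟩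
    · exact h4.trans inter_subset_right
    · exact (subset_closure.trans h4).trans inter_subset_left)
  have hGne : Nonempty G := hG1.to_subtype
  obtain ⟨x, hx⟩ := IsCompact.nonempty_iInter_of_directed_nonempty_isCompact_isClosed
    (fun p : G => closure p.1.1) (by
      intro p q
      obtain ⟨r, hr, hr1, hr2⟩ := hG3 p.1 p.2 q.1 q.2
      exact ⟨⟨r, hr⟩, closure_mono hr1, closure_mono hr2⟩)
    (fun p => p.1.2.2.1.closure) (fun p => isClosed_closure.isCompact) (fun p => isClosed_closure)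
  rw [mem_iInter] at hx
  refine ⟨x, ?_, ?_⟩
  · exact (Classical.arbitrary G).1.2.2.2 (hx _)
  · rw [mem_iInter]
    intro i
    obtain ⟨p, hp, hp'⟩ := hG4 i
    exact hp' (hx ⟨p, hp⟩)

/-- Hechler conditions -/
structure Hec where
  s : List ℕ
  f : ℕ → ℕ

instance : Preorder Hec where
  le p q := q.s <+: p.s ∧ (∀ i, q.f i ≤ p.f i) ∧ ∀ i (h : i < p.s.length), q.s.length ≤ i → q.f i ≤ p.s[i]
  le_refl p := ⟨List.prefix_rfl, fun _ => le_rfl, fun i h h' => absurd h (not_lt.2 h')⟩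
  le_trans p q r := by
    rintro ⟨h1, h2, h3⟩ ⟨k1, k2, k3⟩
    refine ⟨k1.trans h1, fun i => (k2 i).trans (h2 i), fun i hi hi' => ?_⟩
    by_cases h : i < q.s.length
    · have := k3 i h hi'
      rwa [h1.getElem h] at this
    · exact (k2 i).trans (h3 i hi (not_lt.1 h))

theorem MartinAxiom.bounded (h : MartinAxiom) {ι : Type} (hι : #ι < 𝔠) : Bounded ι := by
  intro f
  have : Nonempty Hec := ⟨⟨[], fun _ => 0⟩⟩
  have hccc : ∀ A : Set Hec, (∀ p ∈ A, ∀ q ∈ A, p ≠ q → ¬ ∃ r : Hec, r ≤ p ∧ r ≤ q) →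
      A.Countable := by
    intro A hA
    have hinj : InjOn Hec.s A := by
      intro p hp q hq hpq
      by_contra hne
      refine hA p hp q hq hne ⟨⟨p.s, fun i => max (p.f i) (q.f i)⟩, ⟨List.prefix_rfl,
        fun i => le_max_left _ _, fun i h h' => absurd h (not_lt.2 h')⟩, ⟨?_, fun i => le_max_right _ _,
        fun i h h' => ?_⟩⟩
      · change q.s <+: p.s
        rw [hpq]
      · change i < p.s.length at h
        rw [hpq] at h
        exact absurd h (not_lt.2 h')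
    exact Set.MapsTo.countable_of_injOn (mapsTo_univ _ _) hinj (Set.to_countable _)
  obtain ⟨G, hG1, hG2, hG3, hG4⟩ := h.exists_filter hccc (ι := ι ⊕ ℕ) (by
      rw [Cardinal.mk_sum, Cardinal.lift_id, Cardinal.lift_id]
      exact Cardinal.add_lt_of_lt Cardinal.aleph0_le_continuum hι (by
        rw [Cardinal.mk_nat]; exact Cardinal.aleph0_lt_continuum))
    (fun j => match j with
      | Sum.inl i => {p : Hec | ∀ n, f i n ≤ p.f n}
      | Sum.inr n => {p : Hec | n ≤ p.s.length}) (by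
      rintro (i | n) p
      · exact ⟨⟨p.s, fun n => max (p.f n) (f i n)⟩, fun n => le_max_right _ _, List.prefix_rfl,
          fun n => le_max_left _ _, fun i h h' => absurd h (not_lt.2 h')⟩
      · refine ⟨⟨p.s ++ (List.range n).map fun i => p.f (p.s.length + i), p.f⟩, ?_, ?_, fun _ => le_rfl,
          fun i hi hi' => ?_⟩
        · simp
        · exact List.prefix_append _ _
        · change p.f i ≤ (p.s ++ (List.range n).map fun i => p.f (p.s.length + i))[i]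
          rw [List.getElem_append_right hi']
          simp only [List.getElem_map, List.getElem_range]
          rw [Nat.add_sub_cancel' hi'])
  have h1 : ∀ n, ∃ p ∈ G, n < p.s.length := by
    intro n
    obtain ⟨p, hp, hp'⟩ := hG4 (Sum.inr (n + 1))
    exact ⟨p, hp, hp'⟩
  choose p hp hpn using h1
  refine ⟨fun n => (p n).s[n]'(hpn n), fun i => ?_⟩
  obtain ⟨q, hq, hq'⟩ := hG4 (Sum.inl i)
  refine ⟨q.s.length, fun n hn => ?_⟩
  obtain ⟨r, hr, hr1, hr2⟩ := hG3 q hq (p n) (hp n)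
  refine (hq' n).trans ?_
  have hlen : n < r.s.length := (hpn n).trans_le hr2.1.length_le
  have h2 := hr1.2.2 n hlen hn
  change q.f n ≤ (p n).s[n]'(hpn n)
  rw [hr2.1.getElem (hpn n)]
  exact h2

end Pool.Agent.R582.ZZ
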