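import Mathlib

set_option autoImplicit false

/-!
# Compact spaces without convergent sequences: the ZFC part
-/

namespace Pool.Agent.R582.ZZ

open Cardinal Set Filter Topology

open Classical in
/-- the finite set `σ ∪ {q}` -/
noncomputable def add {α : Type} (q : α) (σ : Finset α) : Finset α := insert q σ

theorem add_eq {α : Type} [DecidableEq α] (q : α) (σ : Finset α) : add q σ = insert q σ := by
  ext x
  unfold add
  simp only [Finset.mem_insert]

/-- A combinatorial statement about a set `K`. `T σ m s` is a relation between finite sets `σ` of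
pairs (element of `K`, truth value), and finite binary strings; the string of length `m` is given by
a finite set `s` of natural numbers, whose elements below `m` are the places where the string has
the value `1`. If `T` passes to subsets of `σ` and to initial segments of the string, every related
pair can be extended by deciding one more element of `K`, and `∅` is related to all strings, then
there are sequences `z n` of subsets of `K` and `a n` of pairwise different subsets of `ℕ` such
that all finite parts of `z n` are related to all initial segments of `a n`, and `z n` converges. -/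
def Sel (K : Type) : Prop :=
  ∀ T : Finset (K × Bool) → ℕ → Finset ℕ → Prop,
    ((∀ σ τ m s, σ ⊆ τ → T τ m s → T σ m s) ∧
      (∀ σ m m' s s', (m ≤ m' ∧ ∀ i < m, (i ∈ s ↔ i ∈ s')) → T σ m' s' → T σ m s) ∧
      (∀ σ m s k, T σ m s → T (add (k, false) σ) m s ∨ T (add (k, true) σ) m s) ∧
      (∀ m s, T ∅ m s)) →
    ∃ (z : ℕ → Set K) (a : ℕ → Set ℕ),
      (∀ n σ m s, ((∀ q : K × Bool, q ∈ σ → (q.1 ∈ z n ↔ q.2 = true)) ∧
        (∀ i, i < m → (i ∈ a n ↔ i ∈ s))) → T σ m s) ∧
      (∀ n n', n ≠ n' → ¬ ∀ i, (i ∈ a n ↔ i ∈ a n')) ∧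
      (∀ k, (∃ N, ∀ n, N ≤ n → k ∈ z n) ∨ (∃ N, ∀ n, N ≤ n → k ∉ z n))

section

variable {X : Type} [TopologicalSpace X]

theorem acc_infinite [T1Space X] {F : Set X} {p : X} (h : AccPt p (𝓟 F)) {U : Set X} (hU : U ∈ 𝓝 p) :
    (F ∩ U).Infinite := by
  intro hfin
  have h1 : ((F ∩ U) \ {p}).Finite := hfin.subset diff_subset
  have h2 : U ∩ ((F ∩ U) \ {p})ᶜ ∈ 𝓝 p :=
    inter_mem hU (h1.isClosed.isOpen_compl.mem_nhds (by simp))
  obtain ⟨y, ⟨hy1, hy2⟩, hy3⟩ := (accPt_iff_nhds.1 h) _ h2
  exact hy1.2 ⟨⟨hy2, hy1.1⟩, hy3⟩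

variable [CompactSpace X] [T2Space X]

/-- An infinite closed set contains two disjoint infinite closed sets. -/
theorem exists_split (hno : ¬ ∃ (u : ℕ → X) (x : X), Function.Injective u ∧ Tendsto u atTop (𝓝 x))
    {F : Set X} (hF : IsClosed F) (hinf : F.Infinite) :
    ∃ G H : Set X, (IsClosed G ∧ G.Infinite) ∧ (IsClosed H ∧ H.Infinite) ∧ G ⊆ F ∧ H ⊆ F ∧
      Disjoint G H := by
  obtain ⟨p, hpF, hp⟩ := hinf.exists_accPt_of_subset_isCompact hF.isCompact subset_rfl
  have h1 : ∃ q, q ≠ p ∧ AccPt q (𝓟 F) := by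
    by_contra hcon
    push Not at hcon
    apply hno
    have : Infinite F := hinf.to_subtype
    refine ⟨fun n => (Infinite.natEmbedding F n : X), p, fun m n h =>
      (Infinite.natEmbedding F).injective (Subtype.ext h), ?_⟩
    rw [tendsto_nhds]
    intro U hU hpU
    have hfin : (F \ U).Finite := by
      by_contra hinf'
      obtain ⟨q, hq, hq'⟩ := Set.Infinite.exists_accPt_of_subset_isCompact hinf'
        ((hF.sdiff hU).isCompact) subset_rfl
      have hqp : q ≠ p := fun h => hq.2 (h ▸ hpU)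
      exact hcon q hqp (hq'.mono (principal_mono.2 diff_subset))
    have h2 : {n | ((Infinite.natEmbedding F n : F) : X) ∈ F \ U}.Finite :=
      hfin.preimage (fun m _ n _ h => (Infinite.natEmbedding F).injective (Subtype.ext h))
    rw [mem_atTop_sets]
    obtain ⟨N, hN⟩ := h2.bddAbove
    refine ⟨N + 1, fun n hn => ?_⟩
    by_contra hcon'
    have : n ≤ N := hN ⟨(Infinite.natEmbedding F n).2, hcon'⟩
    omega
  obtain ⟨q, hqp, hq⟩ := h1
  obtain ⟨u, hpu, hu, v, hqv, hv, huv⟩ := exists_open_nhds_disjoint_closure hqp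
  refine ⟨F ∩ closure u, F ∩ closure v, ⟨hF.inter isClosed_closure, ?_⟩,
    ⟨hF.inter isClosed_closure, ?_⟩, inter_subset_left, inter_subset_left,
    huv.mono inter_subset_right inter_subset_right⟩
  · exact (acc_infinite hq (hu.mem_nhds hpu)).mono (inter_subset_inter_right _ subset_closure)
  · exact (acc_infinite hp (hv.mem_nhds hqv)).mono (inter_subset_inter_right _ subset_closure)

/-- the main ZFC fact -/
theorem exists_seq [Infinite X] {K : Type} (hK : Sel K) (U V : K → Set X) (hU : ∀ k, IsOpen (U k))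
    (hV : ∀ k, IsOpen (V k)) (hdisj : ∀ k, Disjoint (U k) (V k))
    (hsep : ∀ x y, x ≠ y → ∃ k, x ∈ U k ∧ y ∈ V k) :
    ∃ (u : ℕ → X) (x : X), Function.Injective u ∧ Tendsto u atTop (𝓝 x) := by
  classical
  by_contra hno
  let 𝓒 : Type := {F : Set X // IsClosed F ∧ F.Infinite}
  have hsplit : ∀ F : 𝓒, ∃ G : Bool → 𝓒, (∀ i, (G i).1 ⊆ F.1) ∧ Disjoint (G false).1 (G true).1 := by
    intro F
    obtain ⟨G, H, hG, hH, hGF, hHF, hd⟩ := exists_split hno F.2.1 F.2.2
    refine ⟨fun i => if i then ⟨H, hH⟩ else ⟨G, hG⟩, ?_, ?_⟩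
    · intro i
      cases i
      · simpa using hGF
      · simpa using hHF
    · simpa using hd
  choose sp hsp1 hsp2 using hsplit
  let F : Set ℕ → ℕ → 𝓒 := fun s m => Nat.rec ⟨univ, isClosed_univ, infinite_univ⟩
    (fun i G => sp G (decide (i ∈ s))) m
  have hF0 : ∀ s, F s 0 = ⟨univ, isClosed_univ, infinite_univ⟩ := fun s => rfl
  have hFs : ∀ s m, F s (m + 1) = sp (F s m) (decide (m ∈ s)) := fun s m => rfl
  have hFeq : ∀ s s' : Set ℕ, ∀ m, (∀ i < m, (i ∈ s ↔ i ∈ s')) → F s m = F s' m := by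
    intro s s' m
    induction m with
    | zero => intro _; rfl
    | succ m ih =>
      intro h
      rw [hFs, hFs, ih fun i hi => h i (by omega)]
      congr 1
      rw [decide_eq_decide]
      exact h m (by omega)
  have hFanti : ∀ s m m', m ≤ m' → (F s m').1 ⊆ (F s m).1 := by
    intro s m m' h
    induction m', h using Nat.le_induction with
    | base => exact subset_rfl
    | succ m' _ ih =>
      rw [hFs]
      exact (hsp1 _ _).trans ih
  have hFdis : ∀ (s s' : Set ℕ), (¬ ∀ i, (i ∈ s ↔ i ∈ s')) → ∃ m, Disjoint (F s m).1 (F s' m).1 := by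
    intro s s' h
    push Not at h
    have h' : ∃ i, ¬ (i ∈ s ↔ i ∈ s') := by
      obtain ⟨i, hi⟩ := h
      exact ⟨i, by tauto⟩
    have h1 := Nat.find_spec h'
    have h2 : ∀ i < Nat.find h', (i ∈ s ↔ i ∈ s') := fun i hi => not_not.1 (Nat.find_min h' hi)
    refine ⟨Nat.find h' + 1, ?_⟩
    rw [hFs, hFs, hFeq s s' _ h2]
    by_cases hs : Nat.find h' ∈ s
    · have hs' : Nat.find h' ∉ s' := fun h3 => h1 ⟨fun _ => h3, fun _ => hs⟩
      rw [decide_eq_true hs, decide_eq_false hs']
      exact (hsp2 _).symm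
    · have hs' : Nat.find h' ∈ s' := by
        by_contra h3
        exact h1 ⟨fun h4 => absurd h4 hs, fun h4 => absurd h4 h3⟩
      rw [decide_eq_false hs, decide_eq_true hs']
      exact hsp2 _
  let W : K × Bool → Set X := fun q => if q.2 then V q.1 else U q.1
  have hW : ∀ q, IsOpen (W q) := by
    rintro ⟨k, i⟩
    cases i
    · simpa [W] using hU k
    · simpa [W] using hV k
  obtain ⟨z, a, hz, ha, hconv⟩ := hK
    (fun σ m s => ∃ x ∈ (F (s : Set ℕ) m).1, ∀ q ∈ σ, x ∉ W q) (by
      refine ⟨?_, ?_, ?_, ?_⟩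
      · rintro σ τ m s hστ ⟨x, hx, hx'⟩
        exact ⟨x, hx, fun q hq => hx' q (hστ hq)⟩
      · rintro σ m m' s s' ⟨hm, hs⟩ ⟨x, hx, hx'⟩
        refine ⟨x, ?_, hx'⟩
        rw [hFeq (s : Set ℕ) (s' : Set ℕ) m (by simpa using hs)]
        exact hFanti _ _ _ hm hx
      · rintro σ m s k ⟨x, hx, hx'⟩
        rw [add_eq, add_eq]
        by_cases hxU : x ∈ U k
        · right
          refine ⟨x, hx, fun q hq => ?_⟩
          rcases Finset.mem_insert.1 hq with rfl | hq
          · simpa [W] using disjoint_left.1 (hdisj k) hxU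
          · exact hx' q hq
        · left
          refine ⟨x, hx, fun q hq => ?_⟩
          rcases Finset.mem_insert.1 hq with rfl | hq
          · simpa [W] using hxU
          · exact hx' q hq
      · intro m s
        obtain ⟨x, hx⟩ := (F (s : Set ℕ) m).2.2.nonempty
        exact ⟨x, hx, by simp⟩)
  have hx : ∀ n, ∃ x : X, (∀ m, x ∈ (F (a n) m).1) ∧ ∀ k, x ∉ W (k, decide (k ∈ z n)) := by
    intro n
    have h1 : (⋂ i : ℕ × Finset K, {x | x ∈ (F (a n) i.1).1 ∧
        ∀ k ∈ i.2, x ∉ W (k, decide (k ∈ z n))}).Nonempty := by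
      have hcl : ∀ i : ℕ × Finset K, IsClosed {x | x ∈ (F (a n) i.1).1 ∧
          ∀ k ∈ i.2, x ∉ W (k, decide (k ∈ z n))} := by
        intro i
        have : {x | x ∈ (F (a n) i.1).1 ∧ ∀ k ∈ i.2, x ∉ W (k, decide (k ∈ z n))} =
            (F (a n) i.1).1 ∩ ⋂ k ∈ i.2, (W (k, decide (k ∈ z n)))ᶜ := by
          ext x; simp
        rw [this]
        exact (F (a n) i.1).2.1.inter (isClosed_biInter fun k _ => (hW _).isClosed_compl)
      refine IsCompact.nonempty_iInter_of_directed_nonempty_isCompact_isClosed _ ?_ ?_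
        (fun i => (hcl i).isCompact) hcl
      · intro i j
        refine ⟨(max i.1 j.1, i.2 ∪ j.2), ?_, ?_⟩
        · rintro x ⟨h1, h2⟩
          exact ⟨hFanti _ _ _ (le_max_left _ _) h1, fun k hk => h2 k (Finset.mem_union_left _ hk)⟩
        · rintro x ⟨h1, h2⟩
          exact ⟨hFanti _ _ _ (le_max_right _ _) h1, fun k hk => h2 k (Finset.mem_union_right _ hk)⟩
      · rintro ⟨m, D⟩
        obtain ⟨x, hx, hx'⟩ := hz n (D.image fun k => (k, decide (k ∈ z n))) m
          ((Finset.range m).filter fun i => i ∈ a n) ⟨by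
            intro q hq
            obtain ⟨k, -, rfl⟩ := Finset.mem_image.1 hq
            simp, by
            intro i hi
            simp [hi]⟩
        refine ⟨x, ?_, fun k hk => hx' _ (Finset.mem_image_of_mem _ hk)⟩
        rw [hFeq (a n) _ m]
        · exact hx
        · intro i hi
          simp [hi]
    obtain ⟨x, hx⟩ := h1
    rw [mem_iInter] at hx
    exact ⟨x, fun m => (hx (m, ∅)).1, fun k => (hx (0, {k})).2 k (by simp)⟩
  choose x hx1 hx2 using hx
  apply hno
  obtain ⟨y, hy⟩ := exists_clusterPt_of_compactSpace (map x atTop)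
  refine ⟨x, y, ?_, ?_⟩
  · intro n n' hnn
    by_contra hne
    obtain ⟨m, hm⟩ := hFdis _ _ (ha n n' hne)
    exact disjoint_left.1 hm (hx1 n m) (hnn ▸ hx1 n' m)
  · refine le_nhds_of_unique_clusterPt fun y' hy' => ?_
    by_contra hne
    obtain ⟨k, hk, hk'⟩ := hsep y' y hne
    have h1 : ∃ᶠ n in atTop, x n ∈ U k := by
      have := (mapClusterPt_iff_frequently.1 hy') (U k) ((hU k).mem_nhds hk)
      exact this
    have h2 : ∃ᶠ n in atTop, x n ∈ V k := by
      have := (mapClusterPt_iff_frequently.1 hy) (V k) ((hV k).mem_nhds hk')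
      exact this
    rcases hconv k with ⟨N, hN⟩ | ⟨N, hN⟩
    · apply h2
      filter_upwards [eventually_ge_atTop N] with n hn
      have := hx2 n k
      simpa [W, hN n hn] using this
    · apply h1
      filter_upwards [eventually_ge_atTop N] with n hn
      have := hx2 n k
      simpa [W, hN n hn] using this

end

end Pool.Agent.R582.ZZ
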