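import Mathlib
import Pool.Agent.R582.ZZ.Top

set_option autoImplicit false

/-!
# The cardinal `𝔷`
-/

namespace Pool.Agent.R582.ZZ

open Cardinal Set Filter Topology

/-- The weight of a topological space: the least cardinality of a base. -/
noncomputable def weight (X : Type) [TopologicalSpace X] : Cardinal.{0} :=
  sInf {κ | ∃ B : Set (Set X), TopologicalSpace.IsTopologicalBasis B ∧ #B = κ}

/-- No sequence in `X` converges non-trivially, and `X` is not discrete. -/
def NonSequential (X : Type) [TopologicalSpace X] : Prop :=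
  ¬ DiscreteTopology X ∧ ∀ (u : ℕ → X) (x : X), Tendsto u atTop (𝓝 x) →
    ∃ (N : ℕ) (y : X), ∀ n, N ≤ n → u n = y

/-- The cardinal `𝔷`: the least weight of an infinite compact Hausdorff space which is
non-sequential. -/
noncomputable def zed : Cardinal.{0} :=
  sInf {κ | ∃ (X : Type) (_ : TopologicalSpace X), Infinite X ∧ T2Space X ∧ CompactSpace X ∧
    NonSequential X ∧ weight X = κ}

theorem exists_basis (X : Type) [TopologicalSpace X] :
    ∃ B : Set (Set X), TopologicalSpace.IsTopologicalBasis B ∧ #B = weight X :=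
  csInf_mem (s := {κ | ∃ B : Set (Set X), TopologicalSpace.IsTopologicalBasis B ∧ #B = κ})
    ⟨_, _, TopologicalSpace.isTopologicalBasis_opens, rfl⟩

theorem weight_le {X : Type} [TopologicalSpace X] {B : Set (Set X)}
    (hB : TopologicalSpace.IsTopologicalBasis B) : weight X ≤ #B :=
  csInf_le' ⟨B, hB, rfl⟩

/-- There are no injective convergent sequences of ultrafilters on `ℕ`. -/
theorem ultra_no_seq (u : ℕ → Ultrafilter ℕ) (x : Ultrafilter ℕ) (hu : Tendsto u atTop (𝓝 x))
    (hne : ∀ n, u n ≠ x) : False := by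
  classical
  have hmem : ∀ A : Set ℕ, A ∈ x → ∀ᶠ n in atTop, A ∈ u n := by
    intro A hA
    exact hu.eventually ((ultrafilter_isOpen_basic A).mem_nhds hA)
  obtain ⟨f, hf, hf'⟩ := exists_seq_of_forall_finset_exists
    (fun q : ℕ × Set ℕ => q.2 ∈ u q.1 ∧ q.2 ∉ x)
    (fun q r : ℕ × Set ℕ => q.1 < r.1 ∧ Disjoint q.2 r.2) (by
      intro s hs
      have h1 : (⋂ q ∈ s, (q.2)ᶜ) ∈ x := by
        refine (Filter.biInter_finset_mem s).2 fun q hq => ?_
        exact Ultrafilter.compl_mem_iff_notMem.2 (hs q hq).2
      obtain ⟨n, hn, hn'⟩ := ((hmem _ h1).and (eventually_gt_atTop (s.sup Prod.fst))).exists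
      have h2 : ∃ A, A ∈ u n ∧ A ∉ x := by
        by_contra hcon
        push Not at hcon
        exact hne n (Ultrafilter.eq_of_le (g := u n) (f := x) hcon).symm
      obtain ⟨A, hA, hA'⟩ := h2
      refine ⟨(n, A ∩ ⋂ q ∈ s, (q.2)ᶜ), ⟨Filter.inter_mem hA hn, fun h => hA' ?_⟩, fun q hq => ⟨?_, ?_⟩⟩
      · exact Filter.mem_of_superset h inter_subset_left
      · exact (Finset.le_sup (f := Prod.fst) hq).trans_lt hn'
      · rw [disjoint_left]
        intro k hk hk'
        exact (mem_iInter₂.1 hk'.2 q hq) hk)
  have hmono : StrictMono fun i => (f i).1 := strictMono_nat_of_lt_succ fun i =>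
    (hf' i (i + 1) (by omega)).1
  have hdis : ∀ i j, i ≠ j → Disjoint (f i).2 (f j).2 := by
    intro i j hij
    rcases lt_or_gt_of_ne hij with h | h
    · exact (hf' i j h).2
    · exact (hf' j i h).2.symm
  let A : Set ℕ := ⋃ i, (f (2 * i)).2
  have hev : ∀ i, A ∈ u (f (2 * i)).1 := fun i =>
    Filter.mem_of_superset (hf (2 * i)).1 (subset_iUnion (fun i => (f (2 * i)).2) i)
  have hodd : ∀ i, Aᶜ ∈ u (f (2 * i + 1)).1 := by
    intro i
    refine Filter.mem_of_superset (hf (2 * i + 1)).1 ?_
    intro k hk hk'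
    obtain ⟨j, hj⟩ := mem_iUnion.1 hk'
    exact disjoint_left.1 (hdis (2 * i + 1) (2 * j) (by omega)) hk hj
  by_cases hA : A ∈ x
  · obtain ⟨N, hN⟩ := eventually_atTop.1 (hmem A hA)
    have h1 := hN (f (2 * N + 1)).1 (by
      have := hmono.id_le (2 * N + 1)
      simp only [id] at this
      omega)
    exact Ultrafilter.compl_notMem_iff.2 h1 (hodd N)
  · rw [← Ultrafilter.compl_mem_iff_notMem] at hA
    obtain ⟨N, hN⟩ := eventually_atTop.1 (hmem _ hA)
    have h1 := hN (f (2 * N)).1 (by
      have := hmono.id_le (2 * N)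
      simp only [id] at this
      omega)
    exact Ultrafilter.compl_notMem_iff.2 (hev N) h1

theorem ultra_nonseq : NonSequential (Ultrafilter ℕ) := by
  constructor
  · intro h
    have h1 : Finite (Ultrafilter ℕ) := finite_of_compact_of_discrete
    have h2 : Function.Injective (fun n : ℕ => (pure n : Ultrafilter ℕ)) := Ultrafilter.pure_injective
    exact not_injective_infinite_finite _ h2
  · intro u x hu
    by_cases hfin : {n | u n ≠ x}.Finite
    · obtain ⟨N, hN⟩ := hfin.bddAbove
      refine ⟨N + 1, x, fun n hn => ?_⟩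
      by_contra hne
      have : n ≤ N := hN hne
      omega
    · exfalso
      have hinf : {n | u n ≠ x}.Infinite := hfin
      exact ultra_no_seq (fun n => u (Nat.nth (fun n => u n ≠ x) n)) x
        (hu.comp (Nat.nth_strictMono hinf).tendsto_atTop) (fun n => Nat.nth_mem_of_infinite hinf n)

theorem zed_le : zed ≤ 𝔠 := by
  refine le_trans (csInf_le' ⟨Ultrafilter ℕ, inferInstance, ?_, inferInstance, inferInstance,
    ultra_nonseq, rfl⟩) ?_
  · exact Infinite.of_injective _ Ultrafilter.pure_injective
  · refine (weight_le ultrafilterBasis_is_basis).trans ?_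
    refine (Cardinal.mk_range_le).trans ?_
    simp

/-- The hypothesis: `W` is nonempty, no function maps `ℕ` onto `W` or `W` onto `C`, `C` has as many
elements as there are sets of natural numbers, and `Sel` holds for all proper initial segments of
`C`. -/
def Hyp (W C : Type) [LinearOrder C] : Prop :=
  (∃ w : W, w = w) ∧ (¬ ∃ f : ℕ → W, Function.Surjective f) ∧
  (¬ ∃ f : W → C, Function.Surjective f) ∧
  (∃ E : C → Set ℕ, Function.Surjective E) ∧ (∃ E : C → Set ℕ, Function.Injective E) ∧
  ∀ c : C, Sel (Iio c)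

theorem zed_eq {W C : Type} [LinearOrder C] (h : Hyp W C) :
    zed = 𝔠 ∧ ℵ_ 1 < (𝔠 : Cardinal.{0}) := by
  obtain ⟨⟨w, -⟩, hW, hWC, ⟨E, hE⟩, ⟨E', hE'⟩, hS⟩ := h
  have hC : #C = 𝔠 := by
    apply le_antisymm
    · have := Cardinal.mk_le_of_injective hE'
      simpa using this
    · have := Cardinal.mk_le_of_surjective hE
      simpa using this
  have hCinf : ℵ₀ ≤ #C := by rw [hC]; exact Cardinal.aleph0_le_continuum
  have hCne : Nonempty C := by
    rw [← Cardinal.mk_ne_zero_iff]
    exact (Cardinal.aleph0_pos.trans_le hCinf).ne'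
  constructor
  · apply le_antisymm zed_le
    refine le_csInf ⟨_, Ultrafilter ℕ, inferInstance,
      Infinite.of_injective _ Ultrafilter.pure_injective, inferInstance, inferInstance,
      ultra_nonseq, rfl⟩ ?_
    rintro _ ⟨X, _, _, _, _, ⟨-, hns⟩, rfl⟩
    by_contra hlt
    rw [not_le] at hlt
    obtain ⟨B, hB, hBc⟩ := exists_basis X
    -- a set of pairs of basic sets
    let Q : Type := (B × B) ⊕ ℕ
    have hQ : #Q < #C := by
      rw [hC]
      simp only [Q, Cardinal.mk_sum, Cardinal.lift_id, Cardinal.mk_prod, Cardinal.mk_nat]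
      have h1 : #B < 𝔠 := hBc ▸ hlt
      exact Cardinal.add_lt_of_lt Cardinal.aleph0_le_continuum
        (Cardinal.mul_lt_of_lt Cardinal.aleph0_le_continuum h1 h1) Cardinal.aleph0_lt_continuum
    have hQinf : ℵ₀ ≤ #Q := by
      simp only [Q, Cardinal.mk_sum, Cardinal.lift_id, Cardinal.mk_prod, Cardinal.mk_nat]
      exact le_add_self
    have hc : ∃ c : C, #Q ≤ #(Iio c) := by
      by_contra hcon
      push Not at hcon
      obtain ⟨D, hD⟩ := Cardinal.le_mk_iff_exists_set.1 hQ.le
      have hcof : ∀ c, ∃ d ∈ D, c ≤ d := by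
        intro c
        by_contra hcon'
        push Not at hcon'
        have : D ⊆ Iio c := fun d hd => hcon' d hd
        exact absurd (hD ▸ Cardinal.mk_le_mk_of_subset this) (not_le.2 (hcon c))
      have h1 : (univ : Set C) = ⋃ d : D, Iic d.1 := by
        ext c
        obtain ⟨d, hd, hcd⟩ := hcof c
        simp only [mem_univ, mem_iUnion, true_iff]
        exact ⟨⟨d, hd⟩, hcd⟩
      have h2 : #C ≤ #Q := by
        rw [← Cardinal.mk_univ, h1]
        calc #(⋃ d : D, Iic d.1) ≤ Cardinal.sum fun d : D => #(Iic d.1) :=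
              Cardinal.mk_iUnion_le_sum_mk
          _ ≤ Cardinal.sum fun _ : D => #Q := by
              refine Cardinal.sum_le_sum _ _ fun d => ?_
              rw [← Iio_insert]
              refine Cardinal.mk_insert_le.trans ?_
              calc #(Iio d.1) + 1 ≤ #Q + 1 := add_le_add (hcon d.1).le le_rfl
                _ = #Q := Cardinal.add_one_eq hQinf
          _ = #Q * #Q := by rw [Cardinal.sum_const', hD]
          _ = #Q := Cardinal.mul_eq_self hQinf
      exact absurd h2 (not_le.2 hQ)
    obtain ⟨c, hc⟩ := hc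
    have hQne : Nonempty Q := ⟨Sum.inr 0⟩
    obtain ⟨g, hg⟩ : ∃ g : Iio c → Q, Function.Surjective g := by
      obtain ⟨e⟩ := (Cardinal.le_def _ _).1 hc
      exact ⟨Function.invFun e, Function.invFun_surjective e.injective⟩
    classical
    let U : Q → Set X := fun q => match q with
      | Sum.inl p => if Disjoint p.1.1 p.2.1 then p.1.1 else ∅
      | Sum.inr _ => ∅
    let V : Q → Set X := fun q => match q with
      | Sum.inl p => if Disjoint p.1.1 p.2.1 then p.2.1 else ∅
      | Sum.inr _ => ∅
    obtain ⟨u, x, hinj, hux⟩ := exists_seq (hS c) (fun k => U (g k)) (fun k => V (g k)) (by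
        intro k
        rcases h : g k with p | n
        · simp only [U]
          split_ifs
          · exact hB.isOpen p.1.2
          · exact isOpen_empty
        · exact isOpen_empty) (by
        intro k
        rcases h : g k with p | n
        · simp only [V]
          split_ifs
          · exact hB.isOpen p.2.2
          · exact isOpen_empty
        · exact isOpen_empty) (by
        intro k
        rcases h : g k with p | n
        · simp only [U, V]
          split_ifs with h'
          · exact h'
          · exact disjoint_bot_left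
        · exact disjoint_bot_left) (by
        intro x y hxy
        obtain ⟨O, O', hO, hO', hxO, hyO', hd⟩ := t2_separation hxy
        obtain ⟨b, hb, hxb, hbO⟩ := hB.exists_subset_of_mem_open hxO hO
        obtain ⟨b', hb', hyb', hbO'⟩ := hB.exists_subset_of_mem_open hyO' hO'
        obtain ⟨k, hk⟩ := hg (Sum.inl (⟨b, hb⟩, ⟨b', hb'⟩))
        have hdis : Disjoint b b' := hd.mono hbO hbO'
        refine ⟨k, ?_, ?_⟩
        · simp only [hk, U, if_pos hdis]
          exact hxb
        · simp only [hk, V, if_pos hdis]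
          exact hyb')
    obtain ⟨N, y, hN⟩ := hns u x hux
    have := hinj ((hN N le_rfl).trans (hN (N + 1) (by omega)).symm)
    omega
  · rw [← hC]
    have h1 : ℵ₀ < #W := by
      by_contra hcon
      rw [not_lt, Cardinal.mk_le_aleph0_iff] at hcon
      have : Nonempty W := ⟨w⟩
      exact hW (exists_surjective_nat W)
    have h2 : #W < #C := by
      by_contra hcon
      rw [not_lt] at hcon
      obtain ⟨e⟩ := (Cardinal.le_def _ _).1 hcon
      exact hWC ⟨Function.invFun e, Function.invFun_surjective e.injective⟩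
    have h3 : ℵ_ 1 ≤ #W := by
      rw [← Cardinal.succ_aleph0]
      exact Order.succ_le_of_lt h1
    exact h3.trans_lt h2

end Pool.Agent.R582.ZZ
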