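import Mathlib
import Pool.Agent.R582.ZZ.MA
import Pool.Agent.R582.ZZ.Zed
import Pool.Agent.R582.Rand.Reg
import Pool.Agent.R582.Rand.Prod

set_option autoImplicit false

/-!
# The hypothesis in the forcing language, and that it is forced
-/

namespace Pool.Agent.R582.ZZ

open Cardinal Set Filter MeasureTheory
open scoped ENNReal
open Pool.Agent.Helper292.SP (fnot fand fall fimp fiff fex for' fground meets IsFun mem_fex mem_fimp
  not_fex down_meets meets_cst meets_of_mem)
open Pool.Agent.H631R2 (CCC NoOnto PowLE meets_of_dense mem_fiff mem_fiff_meets)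
open Pool.Agent.R582.Rand

section

variable (P : Type) [Preorder P]

/-- `Sel K` in the forcing language. -/
def SelN (K : Type) : Set P :=
  fall fun T : Finset (K × Bool) → ℕ → Finset ℕ → Set P =>
    fimp
      (fand (fall fun σ => fall fun τ => fall fun m => fall fun s =>
          fimp (fand (fground (σ ⊆ τ)) (meets (T τ m s))) (meets (T σ m s)))
        (fand (fall fun σ => fall fun m : ℕ => fall fun m' : ℕ => fall fun s : Finset ℕ =>
            fall fun s' : Finset ℕ =>
            fimp (fand (fground (m ≤ m' ∧ ∀ i < m, (i ∈ s ↔ i ∈ s'))) (meets (T σ m' s')))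
              (meets (T σ m s)))
          (fand (fall fun σ => fall fun m => fall fun s => fall fun k => fimp (meets (T σ m s))
              (for' (meets (T (add (k, false) σ) m s)) (meets (T (add (k, true) σ) m s))))
            (fall fun m => fall fun s => meets (T ∅ m s)))))
      (fex fun z : ℕ → K → Set P => fex fun a : ℕ → ℕ → Set P =>
        fand (fall fun n => fall fun σ => fall fun m => fall fun s =>
            fimp (fand
                (fall fun q : K × Bool => fimp (fground (q ∈ σ))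
                  (fiff (meets (z n q.1)) (fground (q.2 = true))))
                (fall fun i : ℕ => fimp (fground (i < m)) (fiff (meets (a n i)) (fground (i ∈ s)))))
              (meets (T σ m s)))
          (fand (fall fun n : ℕ => fall fun n' : ℕ => fimp (fground (n ≠ n'))
              (fnot (fall fun i : ℕ => fiff (meets (a n i)) (meets (a n' i)))))
            (fall fun k : K => for'
              (fex fun N : ℕ => fall fun n : ℕ => fimp (fground (N ≤ n)) (meets (z n k)))
              (fex fun N : ℕ => fall fun n : ℕ => fimp (fground (N ≤ n)) (fnot (meets (z n k)))))))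

/-- `Hyp W C` in the forcing language. -/
def HypN (W C : Type) [LinearOrder C] : Set P :=
  fand (fex fun w : W => fground (w = w)) (fand (NoOnto P ℕ W) (fand (NoOnto P W C)
    (fand (PowLE P ℕ C)
      (fand (fex fun E : C → ℕ → Set P => fall fun c : C => fall fun c' : C =>
          fimp (fall fun n : ℕ => fiff (meets (E c n)) (meets (E c' n))) (fground (c = c')))
        (fall fun c : C => SelN P (Iio c))))))

end

section

variable {Ω : Type} [MeasurableSpace Ω] {μ : Measure Ω} [IsFiniteMeasure μ]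

theorem val_imp {N N' : Set (MAlg μ)} {q : MAlg μ} (h : ∀ r ≤ q, r ∈ meets N → r ∈ meets N') :
    ∀ᵐ ω ∂μ, ω ∈ q.s → ω ∈ val N → ω ∈ val N' := by
  have h1 : μ ((q.s ∩ val N) \ val N') = 0 := by
    by_contra hne
    let r : MAlg μ := ⟨(q.s ∩ val N) \ val N', (q.meas.inter (val_meas N)).diff (val_meas N'), hne⟩
    have h2 := h r (null_diff_of_subset fun x hx => hx.1.1)
      (mem_meets.2 (null_diff_of_subset fun x hx => hx.1.2))
    rw [mem_meets] at h2
    refine r.false_of_disj h2 (null_diff_of_subset (subset_refl r.s)) ?_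
    have : val N' ∩ r.s = ∅ := by
      ext x
      simp only [mem_inter_iff, mem_empty_iff_false, iff_false, not_and]
      exact fun hx hx' => hx'.2 hx
    rw [this]; simp
  filter_upwards [ae_imp_iff.2 h1] with ω hω h2 h3
  exact hω ⟨h2, h3⟩

theorem val_imp_or {N N₁ N₂ : Set (MAlg μ)} {q : MAlg μ}
    (h : ∀ r ≤ q, r ∈ meets N → ∃ r' ≤ r, r' ∈ for' (meets N₁) (meets N₂)) :
    ∀ᵐ ω ∂μ, ω ∈ q.s → ω ∈ val N → ω ∈ val N₁ ∨ ω ∈ val N₂ := by
  have h1 : μ ((q.s ∩ val N) \ (val N₁ ∪ val N₂)) = 0 := by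
    by_contra hne
    let r : MAlg μ := ⟨(q.s ∩ val N) \ (val N₁ ∪ val N₂), (q.meas.inter (val_meas N)).diff
      ((val_meas N₁).union (val_meas N₂)), hne⟩
    obtain ⟨r', hr', h2⟩ := h r (null_diff_of_subset fun x hx => hx.1.1)
      (mem_meets.2 (null_diff_of_subset fun x hx => hx.1.2))
    apply h2 r' le_rfl
    constructor
    · intro r'' hr'' h3
      rw [mem_meets] at h3
      refine r''.false_of_disj h3 (hr''.trans hr') ?_
      have : val N₁ ∩ r.s = ∅ := by
        ext x
        simp only [mem_inter_iff, mem_empty_iff_false, iff_false, not_and]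
        exact fun hx hx' => hx'.2 (Or.inl hx)
      rw [this]; simp
    · intro r'' hr'' h3
      rw [mem_meets] at h3
      refine r''.false_of_disj h3 (hr''.trans hr') ?_
      have : val N₂ ∩ r.s = ∅ := by
        ext x
        simp only [mem_inter_iff, mem_empty_iff_false, iff_false, not_and]
        exact fun hx hx' => hx'.2 (Or.inr hx)
      rw [this]; simp
  filter_upwards [ae_imp_iff.2 h1] with ω hω h2 h3
  exact hω ⟨h2, h3⟩

theorem ae_of_mem {r : MAlg μ} {E : Set Ω} (h : μ (r.s \ E) = 0) : ∀ᵐ ω ∂μ, ω ∈ r.s → ω ∈ E :=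
  ae_imp_iff.2 h

theorem selN_forced {K : Type} [LinearOrder K] [WellFoundedLT K]
    (hcov : CovCat ((K ⊕ Finset (K × Bool)) × ℕ)) (hb : Bounded K) (p : MAlg μ) :
    p ∈ SelN (MAlg μ) K := by
  intro T
  rw [mem_fimp]
  rintro q hq ⟨h1, h2, h3, h4⟩
  refine ⟨q, le_rfl, ?_⟩
  obtain ⟨Z, a, hZ, hZT, ha, hconv⟩ := exists_core (μ := μ) hcov hb
    (fun σ m s => val (T σ m s) ∪ (q.s)ᶜ) (fun σ m s => (val_meas _).union q.meas.compl) (by
      intro σ τ m s hστ
      have := val_imp (q := q) (N := T τ m s) (N' := T σ m s) fun r hr hrm =>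
        meets_of_dense fun r' hr' => by
          obtain ⟨r'', hr'', h⟩ := mem_fimp.1 (h1 σ τ m s) r' (hr'.trans hr) ⟨hστ, down_meets hrm hr'⟩
          exact ⟨r'', hr'', h⟩
      filter_upwards [this] with ω hω hω'
      rcases hω' with h | h
      · by_cases hq' : ω ∈ q.s
        · exact Or.inl (hω hq' h)
        · exact Or.inr hq'
      · exact Or.inr h) (by
      intro σ m m' s s' hms
      have := val_imp (q := q) (N := T σ m' s') (N' := T σ m s) fun r hr hrm =>
        meets_of_dense fun r' hr' => by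
          obtain ⟨r'', hr'', h⟩ := mem_fimp.1 (h2 σ m m' s s') r' (hr'.trans hr)
            ⟨hms, down_meets hrm hr'⟩
          exact ⟨r'', hr'', h⟩
      filter_upwards [this] with ω hω hω'
      rcases hω' with h | h
      · by_cases hq' : ω ∈ q.s
        · exact Or.inl (hω hq' h)
        · exact Or.inr hq'
      · exact Or.inr h) (by
      intro σ m s k
      have := val_imp_or (q := q) (N := T σ m s) (N₁ := T (insert (k, false) σ) m s)
        (N₂ := T (insert (k, true) σ) m s) fun r hr hrm => by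
          have := mem_fimp.1 (h3 σ m s k) r hr hrm
          rw [add_eq, add_eq] at this
          exact this
      filter_upwards [this] with ω hω hω'
      rcases hω' with h | h
      · by_cases hq' : ω ∈ q.s
        · rcases hω hq' h with h5 | h5
          · exact Or.inl (Or.inl h5)
          · exact Or.inr (Or.inl h5)
        · exact Or.inl (Or.inr hq')
      · exact Or.inl (Or.inr h)) (by
      intro m s
      filter_upwards [ae_of_mem (mem_meets.1 (h4 m s))] with ω hω
      by_cases hq' : ω ∈ q.s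
      · exact Or.inl (hω hq')
      · exact Or.inr hq')
  refine mem_fex.2 fun q₁ hq₁ => ⟨q₁, le_rfl, fun n k => cst (Z n k), ?_⟩
  refine mem_fex.2 fun q₂ hq₂ => ⟨q₂, le_rfl, fun n i => {_r | a n i = true}, ?_⟩
  have hq₂q : q₂ ≤ q := hq₂.trans hq₁
  refine ⟨fun n σ m s => ?_, fun n n' => ?_, fun k => ?_⟩
  · rw [mem_fimp]
    rintro r hr ⟨hz, hai⟩
    refine ⟨r, le_rfl, mem_meets.2 (ae_imp_iff.1 ?_)⟩
    have hs : ∀ i < m, (a n i = true ↔ i ∈ s) := by
      intro i hi
      obtain ⟨r', hr', h⟩ := mem_fimp.1 (hai i) r le_rfl hi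
      rw [mem_fiff] at h
      constructor
      · intro h5
        obtain ⟨_, -, h6⟩ := h.1 r' le_rfl (meets_cst.2 h5)
        exact h6
      · intro h5
        obtain ⟨_, -, h6⟩ := h.2 r' le_rfl h5
        exact meets_cst.1 h6
    have hz' : ∀ᵐ ω ∂μ, ∀ q' : {q' // q' ∈ σ}, ω ∈ r.s → (ω ∈ Z n q'.1.1 ↔ q'.1.2 = true) := by
      rw [ae_all_iff]
      rintro ⟨q', hq'⟩
      have h5 := hz q'
      by_cases ht : q'.2 = true
      · have h6 : r ∈ meets (cst (Z n q'.1) : Set (MAlg μ)) := by
          apply meets_of_dense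
          intro r' hr'
          obtain ⟨r'', hr'', h⟩ := mem_fimp.1 h5 r' hr' hq'
          obtain ⟨r3, hr3, h7⟩ := (mem_fiff.1 h).2 r'' le_rfl ht
          exact ⟨r3, hr3.trans hr'', h7⟩
        rw [mem_meets_cst (hZ _ _)] at h6
        filter_upwards [ae_imp_iff.2 h6] with ω hω hωr
        exact ⟨fun _ => ht, fun _ => hω hωr⟩
      · have h6 : μ (r.s \ (Z n q'.1)ᶜ) = 0 := by
          by_contra hne
          have hne' : μ (r.s ∩ Z n q'.1) ≠ 0 := by
            rwa [Set.sdiff_compl] at hne
          obtain ⟨r'', hr'', h⟩ := mem_fimp.1 h5 (r.inter _ (hZ n q'.1) hne') (r.inter_le _ _ _) hq'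
          obtain ⟨_, -, h7⟩ := (mem_fiff.1 h).1 r'' le_rfl
            ((mem_meets_cst (hZ _ _)).2 (null_diff_trans hr'' (null_diff_of_subset inter_subset_right)))
          exact ht h7
        filter_upwards [ae_imp_iff.2 h6] with ω hω hωr
        exact ⟨fun h7 => absurd h7 (hω hωr), fun h7 => absurd h7 ht⟩
    filter_upwards [hz', hZT n σ m s hs, ae_of_mem (hr.trans hq₂q)] with ω g1 g2 g3 hω
    rcases g2 (fun q' hq' => g1 ⟨q', hq'⟩ hω) with h | h
    · exact h
    · exact absurd (g3 hω) h
  · rw [mem_fimp]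
    intro r hr hne
    refine ⟨r, le_rfl, fun r' hr' h => ha n n' hne ?_⟩
    funext i
    have h5 := mem_fiff_meets.1 (h i) r' le_rfl
    rw [meets_cst, meets_cst] at h5
    exact Bool.eq_iff_iff.2 h5
  · intro r hr
    rintro ⟨h5, h6⟩
    have hEm : ∀ N, MeasurableSet (⋂ n, ⋂ _ : N ≤ n, Z n k) := fun N =>
      MeasurableSet.iInter fun n => MeasurableSet.iInter fun _ => hZ n k
    have hFm : ∀ N, MeasurableSet (⋂ n, ⋂ _ : N ≤ n, (Z n k)ᶜ) := fun N =>
      MeasurableSet.iInter fun n => MeasurableSet.iInter fun _ => (hZ n k).compl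
    have h7 : (∃ N, μ (r.s ∩ ⋂ n, ⋂ _ : N ≤ n, Z n k) ≠ 0) ∨
        (∃ N, μ (r.s ∩ ⋂ n, ⋂ _ : N ≤ n, (Z n k)ᶜ) ≠ 0) := by
      by_contra hcon
      push Not at hcon
      apply r.pos
      have h8 : ∀ᵐ ω ∂μ, ω ∈ r.s → ω ∈ (∅ : Set Ω) := by
        filter_upwards [hconv k, measure_eq_zero_iff_ae_notMem.1 (measure_iUnion_null hcon.1),
          measure_eq_zero_iff_ae_notMem.1 (measure_iUnion_null hcon.2)] with ω g1 g2 g3 hω
        rcases g1 with ⟨N, hN⟩ | ⟨N, hN⟩
        · exact g2 (mem_iUnion.2 ⟨N, hω, mem_iInter₂.2 hN⟩)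
        · exact g3 (mem_iUnion.2 ⟨N, hω, mem_iInter₂.2 hN⟩)
      rw [ae_imp_iff, sdiff_empty] at h8
      exact h8
    rcases h7 with ⟨N, hN⟩ | ⟨N, hN⟩
    · refine h5 (r.inter _ (hEm N) hN) (r.inter_le _ _ _) (mem_fex.2 fun r' hr' =>
        ⟨r', le_rfl, N, fun n => mem_fimp.2 fun r'' hr'' hn => ⟨r'', le_rfl, ?_⟩⟩)
      rw [mem_meets_cst (hZ _ _)]
      exact null_diff_trans (hr''.trans hr') (null_diff_of_subset fun ω hω => mem_iInter₂.1 hω.2 n hn)
    · refine h6 (r.inter _ (hFm N) hN) (r.inter_le _ _ _) (mem_fex.2 fun r' hr' =>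
        ⟨r', le_rfl, N, fun n => mem_fimp.2 fun r'' hr'' hn => ⟨r'', le_rfl, fun r3 hr3 hr3' => ?_⟩⟩)
      rw [mem_meets_cst (hZ _ _)] at hr3'
      refine r3.false_of_disj hr3' (null_diff_trans (hr3.trans (hr''.trans hr'))
        (null_diff_of_subset (fun ω hω => mem_iInter₂.1 hω.2 n hn :
          (r.inter _ (hFm N) hN).s ⊆ (Z n k)ᶜ))) ?_
      simp

end

end Pool.Agent.R582.ZZ
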