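import Mathlib
import Pool.Agent.R582.ZZ.Force

set_option autoImplicit false

/-!
# The main theorem
-/

namespace Pool.Agent.R582.ZZ

open Cardinal Set Filter MeasureTheory
open scoped ENNReal
open Pool.Agent.Helper292.SP (fnot fand fall fimp fiff fex for' fground meets IsFun mem_fex mem_fimp
  not_fex down_meets meets_cst meets_of_mem)
open Pool.Agent.H631R2 (CCC NoOnto PowLE meets_of_dense mem_fiff mem_fiff_meets)
open Pool.Agent.R582.Rand

theorem mk_malg {X : Type} (hX : #X ≤ 𝔠) : #(MAlg (coins X)) ≤ 𝔠 := by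
  have h1 : #(MAlg (coins X)) ≤ #{s : Set (X → Bool) | MeasurableSet s} := by
    refine Cardinal.mk_le_of_injective (f := fun p : MAlg (coins X) => (⟨p.s, p.meas⟩ :
      {s : Set (X → Bool) | MeasurableSet s})) ?_
    rintro ⟨s, h1, h2⟩ ⟨t, h3, h4⟩ h
    have h5 : s = t := congrArg Subtype.val h
    subst h5
    rfl
  refine h1.trans ?_
  have h2 : (inferInstance : MeasurableSpace (X → Bool)) = MeasurableSpace.generateFrom
      (range fun p : X × Set Bool => (fun f : X → Bool => f p.1) ⁻¹' p.2) := by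
    apply le_antisymm
    · change MeasurableSpace.pi ≤ _
      refine iSup_le fun x => ?_
      rw [MeasurableSpace.comap_le_iff_le_map]
      intro t _
      exact MeasurableSpace.measurableSet_generateFrom ⟨(x, t), rfl⟩
    · refine MeasurableSpace.generateFrom_le ?_
      rintro _ ⟨⟨x, t⟩, rfl⟩
      exact (measurable_pi_apply x) (MeasurableSet.of_discrete)
  have h3 := MeasurableSpace.cardinal_measurableSet_le
    (range fun p : X × Set Bool => (fun f : X → Bool => f p.1) ⁻¹' p.2)
  rw [← h2] at h3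
  refine h3.trans ?_
  have h4 : max #(range fun p : X × Set Bool => (fun f : X → Bool => f p.1) ⁻¹' p.2) 2 ≤ 𝔠 := by
    refine max_le (Cardinal.mk_range_le.trans ?_) ?_
    · rw [Cardinal.mk_prod, Cardinal.lift_id, Cardinal.lift_id]
      refine (mul_le_mul' hX ?_).trans (Cardinal.mul_eq_self Cardinal.aleph0_le_continuum).le
      exact (Cardinal.mk_le_aleph0 (α := Set Bool)).trans Cardinal.aleph0_le_continuum
    · exact (Cardinal.nat_lt_continuum 2).le
  calc _ ≤ (𝔠 : Cardinal.{0}) ^ (ℵ₀ : Cardinal.{0}) := Cardinal.power_le_power_right h4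
    _ = 𝔠 := Cardinal.continuum_power_aleph0

theorem mk_idx {K : Type} (hK : #K < 𝔠) : #((K ⊕ Finset (K × Bool)) × ℕ) < 𝔠 := by
  have h1 : #(Finset (K × Bool)) < 𝔠 := by
    rcases finite_or_infinite K with h | h
    · exact (Cardinal.mk_le_aleph0 (α := Finset (K × Bool))).trans_lt Cardinal.aleph0_lt_continuum
    · rw [Cardinal.mk_finset_of_infinite, Cardinal.mk_prod, Cardinal.lift_id, Cardinal.lift_id]
      exact Cardinal.mul_lt_of_lt Cardinal.aleph0_le_continuum hK
        ((Cardinal.mk_le_aleph0 (α := Bool)).trans_lt Cardinal.aleph0_lt_continuum)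
  rw [Cardinal.mk_prod, Cardinal.lift_id, Cardinal.lift_id, Cardinal.mk_sum, Cardinal.lift_id,
    Cardinal.lift_id]
  exact Cardinal.mul_lt_of_lt Cardinal.aleph0_le_continuum
    (Cardinal.add_lt_of_lt Cardinal.aleph0_le_continuum hK h1)
    ((Cardinal.mk_le_aleph0 (α := ℕ)).trans_lt Cardinal.aleph0_lt_continuum)

theorem hypN_forced (hMA : MartinAxiom) {X : Type} (hX : #X ≤ 𝔠) {W C : Type} (hW : #W = ℵ_ 1)
    [LinearOrder C] [WellFoundedLT C] (hC : #C = 𝔠) (hCi : ∀ c : C, #(Iio c) < 𝔠)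
    (hCH : ℵ_ 1 < (𝔠 : Cardinal.{0})) (p : MAlg (coins X)) : p ∈ HypN (MAlg (coins X)) W C := by
  have hccc : CCC (MAlg (coins X)) := ccc
  have hWne : Nonempty W := by
    rw [← Cardinal.mk_ne_zero_iff, hW]
    exact (Cardinal.aleph_pos 1).ne'
  refine ⟨mem_fex.2 fun q _ => ⟨q, le_rfl, Classical.arbitrary W, rfl⟩, ?_, ?_, ?_, ?_, ?_⟩
  · refine hccc.noOnto (by simp) ?_ p
    rw [Cardinal.mk_nat, hW]
    exact Cardinal.aleph0_lt_aleph_one
  · refine hccc.noOnto ?_ ?_ p
    · rw [hW]; exact Cardinal.aleph0_le_aleph 1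
    · rw [hW, hC]; exact hCH
  · refine hccc.powLE ?_ p
    have h1 : #(Option (MAlg (coins X))) ≤ 𝔠 := by
      rw [Cardinal.mk_option]
      exact Cardinal.add_le_of_le Cardinal.aleph0_le_continuum (mk_malg hX)
        (Cardinal.one_le_aleph0.trans Cardinal.aleph0_le_continuum)
    have h2 : #(ℕ → Option (MAlg (coins X))) ≤ 𝔠 := by
      rw [← Cardinal.power_def, Cardinal.mk_nat]
      exact (Cardinal.power_le_power_right h1).trans Cardinal.continuum_power_aleph0.le
    rw [← Cardinal.power_def, Cardinal.mk_nat, hC]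
    exact (Cardinal.power_le_power_right h2).trans Cardinal.continuum_power_aleph0.le
  · have h1 : #C ≤ #(Set ℕ) := by
      rw [hC]; simp
    obtain ⟨e⟩ := (Cardinal.le_def _ _).1 h1
    refine mem_fex.2 fun q _ => ⟨q, le_rfl, fun c n => {_r | n ∈ e c}, fun c c' => ?_⟩
    refine mem_fimp.2 fun r _ h => ⟨r, le_rfl, e.injective ?_⟩
    ext n
    have h2 := mem_fiff_meets.1 (h n) r le_rfl
    rwa [meets_cst, meets_cst] at h2
  · exact fun c => selN_forced (hMA.covCat (mk_idx (hCi c))) (hMA.bounded (hCi c)) p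

end Pool.Agent.R582.ZZ
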