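import Mathlib
import Pool.Agent.R582.ZZ.Main

set_option autoImplicit false

/-!
# The random reals form a non-null set
-/

namespace Pool.Agent.R582.ZZ

open Cardinal Set Filter MeasureTheory
open scoped ENNReal
open Pool.Agent.Helper292.SP (fnot fand fall fimp fiff fex for' fground meets IsFun mem_fex mem_fimp
  not_fex down_meets meets_cst meets_of_mem)
open Pool.Agent.H631R2 (CCC NoOnto PowLE meets_of_dense mem_fiff mem_fiff_meets)
open Pool.Agent.R582.Rand

/-- the uniformity of the null ideal of `2 ^ ω` -/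
noncomputable def nonN : Cardinal.{0} := sInf {κ | ∃ A : Set (ℕ → Bool), coins ℕ A ≠ 0 ∧ #A = κ}

/-- There are sets `r w`, `w ∈ W`, of natural numbers, such that whenever `c` is a code of a null set
(for each `n` the set `c n` of finite binary strings has at most weight `2 ^ (-n)`), there are `w` and
`n` such that no string in `c n` is an initial segment of (the characteristic function of) `r w`. -/
def NonNull (W : Type) : Prop :=
  ∃ r : W → ℕ → Prop, ∀ c : ℕ → List Bool → Prop,
    (∀ n, ∀ T : Finset (List Bool), (∀ s ∈ T, c n s) →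
      ∑ s ∈ T, (2⁻¹ : ℝ≥0∞) ^ s.length ≤ (2⁻¹ : ℝ≥0∞) ^ n) →
    ∃ w n, ∀ s, c n s → ¬ ∀ i : Fin s.length, (r w i ↔ s.get i = true)

/-- `NonNull` in the forcing language -/
def NonNullN (P : Type) [Preorder P] (W : Type) : Set P :=
  fex fun r : W → ℕ → Set P => fall fun c : ℕ → List Bool → Set P =>
    fimp (fall fun n : ℕ => fall fun T : Finset (List Bool) =>
        fimp (fall fun s : List Bool => fimp (fground (s ∈ T)) (meets (c n s)))
          (fground (∑ s ∈ T, (2⁻¹ : ℝ≥0∞) ^ s.length ≤ (2⁻¹ : ℝ≥0∞) ^ n)))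
      (fex fun w : W => fex fun n : ℕ => fall fun s : List Bool => fimp (meets (c n s))
        (fnot (fall fun i : Fin s.length => fiff (meets (r w i)) (fground (s.get i = true)))))

/-! ### The consequence in ZFC -/

/-- the basic open set given by a finite string -/
def Cyl (s : List Bool) : Set (ℕ → Bool) := {x | ∀ i : Fin s.length, x i = s.get i}

theorem cyl_meas (s : List Bool) : MeasurableSet (Cyl s) := by
  unfold Cyl
  rw [ofPred_forall]
  refine MeasurableSet.iInter fun i => ?_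
  have h : Measurable fun x : ℕ → Bool => x (i : ℕ) := measurable_pi_apply _
  exact h (measurableSet_singleton (s.get i))

theorem coins_Cyl (s : List Bool) : coins ℕ (Cyl s) = (2⁻¹ : ℝ≥0∞) ^ s.length :=
  coins_cyl (fun i : Fin s.length => (i : ℕ)) Fin.val_injective s.get

theorem mem_Cyl_ofFn (x : ℕ → Bool) (k : ℕ) : x ∈ Cyl (List.ofFn fun i : Fin k => x i) := by
  intro i
  simp

theorem eq_ofFn {x : ℕ → Bool} {s : List Bool} (h : x ∈ Cyl s) :
    s = List.ofFn fun i : Fin s.length => x i := by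
  apply List.ext_get (by simp)
  intro n h1 h2
  simp only [List.get_eq_getElem, List.getElem_ofFn]
  exact (h ⟨n, h1⟩).symm

theorem Cyl_ofFn_anti (x : ℕ → Bool) {k l : ℕ} (h : k ≤ l) :
    Cyl (List.ofFn fun i : Fin l => x i) ⊆ Cyl (List.ofFn fun i : Fin k => x i) := by
  intro y hy i
  have hi : (i : ℕ) < k := by simpa using i.2
  have := hy ⟨i, by simpa using hi.trans_le h⟩
  simp only [List.get_eq_getElem, List.getElem_ofFn] at this ⊢
  exact this

theorem exists_cyl {U : Set (ℕ → Bool)} (hU : IsOpen U) {x : ℕ → Bool} (hx : x ∈ U) :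
    ∃ k, Cyl (List.ofFn fun i : Fin k => x i) ⊆ U := by
  rw [isOpen_pi_iff] at hU
  obtain ⟨I, u, hu, hI⟩ := hU x hx
  refine ⟨I.sup id + 1, fun y hy => hI fun i hi => ?_⟩
  have hi' : i < I.sup id + 1 := Nat.lt_succ_of_le (Finset.le_sup (f := id) hi)
  have := hy ⟨i, by simpa using hi'⟩
  simp only [List.get_eq_getElem, List.getElem_ofFn] at this
  rw [this]
  exact (hu i hi).2

theorem nonN_le {W : Type} (h : NonNull W) : nonN ≤ #W := by
  classical
  obtain ⟨r, hr⟩ := h
  let f : W → ℕ → Bool := fun w n => decide (r w n)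
  have hA : coins ℕ (range f) ≠ 0 := by
    intro h0
    have h1 : ∀ n : ℕ, ∃ U, range f ⊆ U ∧ IsOpen U ∧ coins ℕ U < (2⁻¹ : ℝ≥0∞) ^ n := by
      intro n
      refine Set.exists_isOpen_lt_of_lt _ _ ?_
      rw [h0]
      exact ENNReal.pow_pos (by simp) n
    choose U hU hUo hUm using h1
    let c : ℕ → List Bool → Prop := fun n s => Cyl s ⊆ U n ∧
      ∀ k, ∀ x ∈ Cyl s, k < s.length → ¬ Cyl (List.ofFn fun i : Fin k => x i) ⊆ U n
    obtain ⟨w, n, hw⟩ := hr c (by
      intro n T hT
      have hd : (T : Set (List Bool)).PairwiseDisjoint Cyl := by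
        intro s hs t ht hne
        rw [Function.onFun, Set.disjoint_left]
        intro x hxs hxt
        apply hne
        have h2 := hT s hs
        have h3 := hT t ht
        have h4 : s.length = t.length := by
          rcases lt_trichotomy s.length t.length with h | h | h
          · exact absurd (by rw [← eq_ofFn hxs]; exact h2.1) (h3.2 s.length x hxt h)
          · exact h
          · exact absurd (by rw [← eq_ofFn hxt]; exact h3.1) (h2.2 t.length x hxs h)
        rw [eq_ofFn hxs, eq_ofFn hxt, h4]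
      calc ∑ s ∈ T, (2⁻¹ : ℝ≥0∞) ^ s.length = ∑ s ∈ T, coins ℕ (Cyl s) := by
            refine Finset.sum_congr rfl fun s _ => ?_
            rw [coins_Cyl]
        _ = coins ℕ (⋃ s ∈ T, Cyl s) := (measure_biUnion_finset hd fun s _ => cyl_meas s).symm
        _ ≤ coins ℕ (U n) := measure_mono (iUnion₂_subset fun s hs => (hT s hs).1)
        _ ≤ (2⁻¹ : ℝ≥0∞) ^ n := (hUm n).le)
    have hx : f w ∈ U n := hU n ⟨w, rfl⟩
    have hk := exists_cyl (hUo n) hx
    have hcs : c n (List.ofFn fun i : Fin (Nat.find hk) => f w i) := by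
      refine ⟨Nat.find_spec hk, fun k y hy hk' hsub => ?_⟩
      have hk2 : k < Nat.find hk := by simpa using hk'
      refine Nat.find_min hk hk2 ?_
      have : (List.ofFn fun i : Fin k => f w i) = List.ofFn fun i : Fin k => y i := by
        congr 1
        funext i
        have := hy ⟨i, by simpa using i.2.trans hk2⟩
        simp only [List.get_eq_getElem, List.getElem_ofFn] at this
        exact this.symm
      rw [this]
      exact hsub
    refine hw _ hcs fun i => ?_
    have := mem_Cyl_ofFn (f w) (Nat.find hk) i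
    rw [← this]
    simp [f]
  have h2 : nonN ≤ #(range f) := csInf_le' ⟨range f, hA, rfl⟩
  exact h2.trans Cardinal.mk_range_le

theorem nonN_lt_zed {W C : Type} [LinearOrder C] (h : Hyp W C) (h' : NonNull W) :
    nonN < zed := by
  have h1 := (zed_eq h).1
  obtain ⟨⟨w, -⟩, hW, hWC, ⟨E, hE⟩, ⟨E', hE'⟩, hS⟩ := h
  have hC : #C = 𝔠 := by
    apply le_antisymm
    · have := Cardinal.mk_le_of_injective hE'
      simpa using this
    · have := Cardinal.mk_le_of_surjective hE
      simpa using this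
  have hCne : Nonempty C := by
    rw [← Cardinal.mk_ne_zero_iff, hC]
    exact Cardinal.continuum_ne_zero
  rw [h1]
  refine (nonN_le h').trans_lt ?_
  rw [← hC, ← not_le]
  intro hle
  obtain ⟨g⟩ := (Cardinal.le_def _ _).1 hle
  exact hWC ⟨Function.invFun g, Function.invFun_surjective g.injective⟩

/-! ### The forced statement -/

theorem ae_of_fiff {Ω : Type} [MeasurableSpace Ω] {μ : Measure Ω} [IsFiniteMeasure μ] {E : Set Ω}
    (hE : MeasurableSet E) {b : Prop} {v : MAlg μ}
    (h : v ∈ fiff (meets (cst E : Set (MAlg μ))) (fground b)) :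
    ∀ᵐ ω ∂μ, ω ∈ v.s → (ω ∈ E ↔ b) := by
  by_cases hb : b
  · have h6 : v ∈ meets (cst E : Set (MAlg μ)) := by
      apply meets_of_dense
      intro r' hr'
      obtain ⟨r3, hr3, h7⟩ := (mem_fiff.1 h).2 r' hr' hb
      exact ⟨r3, hr3, h7⟩
    rw [mem_meets_cst hE] at h6
    filter_upwards [ae_imp_iff.2 h6] with ω hω hωr
    exact ⟨fun _ => hb, fun _ => hω hωr⟩
  · have h6 : μ (v.s \ Eᶜ) = 0 := by
      by_contra hne
      have hne' : μ (v.s ∩ E) ≠ 0 := by
        rwa [Set.sdiff_compl] at hne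
      obtain ⟨_, -, h7⟩ := (mem_fiff.1 h).1 (v.inter _ hE hne') (v.inter_le _ _ _)
        ((mem_meets_cst hE).2 (null_diff_of_subset inter_subset_right))
      exact hb h7
    filter_upwards [ae_imp_iff.2 h6] with ω hω hωr
    exact ⟨fun h7 => absurd h7 (hω hωr), fun h7 => absurd h7 hb⟩

theorem nonNull_forced {W : Type} (hW : ¬ #W ≤ ℵ₀) (p : MAlg (coins (W × ℕ))) :
    p ∈ NonNullN (MAlg (coins (W × ℕ))) W := by
  classical
  let μ := coins (W × ℕ)
  let E : W → ℕ → Set (W × ℕ → Bool) := fun w i => {ω | ω (w, i) = true}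
  have hE : ∀ w i, MeasurableSet (E w i) := by
    intro w i
    have h : Measurable fun x : W × ℕ → Bool => x (w, i) := measurable_pi_apply _
    exact h (measurableSet_singleton true)
  refine mem_fex.2 fun p1 _ => ⟨p1, le_rfl, fun w i => cst (E w i), fun c => ?_⟩
  rw [mem_fimp]
  intro q _ hc
  refine ⟨q, le_rfl, ?_⟩
  let V : ℕ → List Bool → Set (W × ℕ → Bool) := fun n s => val (c n s) ∩ q.s
  have hV : ∀ n s, MeasurableSet (V n s) := fun n s => (val_meas _).inter q.meas
  -- a countable support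
  choose C hC hCV using fun x : ℕ × List Bool => exists_countable (hV x.1 x.2)
  obtain ⟨w, hw⟩ : ∃ w : W, w ∉ Prod.fst '' (⋃ x, C x) := by
    by_contra hcon
    push Not at hcon
    apply hW
    rw [← Cardinal.mk_univ, Cardinal.le_aleph0_iff_set_countable]
    exact ((countable_iUnion hC).image Prod.fst).mono fun w _ => hcon w
  let R : List Bool → Set (W × ℕ → Bool) := fun s => {ω | ∀ i : Fin s.length, ω (w, i) = s.get i}
  have hR : ∀ s, MeasurableSet (R s) := by
    intro s
    simp only [R]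
    rw [ofPred_forall]
    refine MeasurableSet.iInter fun i => ?_
    have h : Measurable fun x : W × ℕ → Bool => x (w, (i : ℕ)) := measurable_pi_apply _
    exact h (measurableSet_singleton (s.get i))
  have hVR : ∀ n s, coins (W × ℕ) (V n s ∩ R s) ≤ coins (W × ℕ) (V n s) * (2⁻¹ : ℝ≥0∞) ^ s.length := by
    intro n s
    refine coins_match (m := s.length) (fun i => (w, (i : ℕ)))
      (fun i j hij => Fin.ext (Prod.mk.inj hij).2) (⋃ x, C x) (fun i hi => hw ⟨_, hi, rfl⟩)
      (fun _ i => s.get i) (fun t => ?_) (V n s)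
      (mA_mono (subset_iUnion C (n, s)) _ (hCV (n, s)))
    by_cases h : (fun i => s.get i) = t
    · simp only [h, ofPred_true]
      exact @MeasurableSet.univ _ (mA (⋃ x, C x))
    · simp only [h, ofPred_false]
      exact @MeasurableSet.empty _ (mA (⋃ x, C x))
  -- the bound on the weight
  have hbd : ∀ n (T : Finset (List Bool)), ∀ᵐ ω ∂(coins (W × ℕ)), (∀ s ∈ T, ω ∈ V n s) →
      ∑ s ∈ T, (2⁻¹ : ℝ≥0∞) ^ s.length ≤ (2⁻¹ : ℝ≥0∞) ^ n := by
    intro n T
    by_cases hT : ∑ s ∈ T, (2⁻¹ : ℝ≥0∞) ^ s.length ≤ (2⁻¹ : ℝ≥0∞) ^ n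
    · exact Eventually.of_forall fun _ _ => hT
    · rcases T.eq_empty_or_nonempty with rfl | hTne
      · exact absurd (by simp) hT
      have h0 : coins (W × ℕ) (⋂ s ∈ T, V n s) = 0 := by
        by_contra hne
        have hm : MeasurableSet (⋂ s ∈ T, V n s) := Finset.measurableSet_biInter T fun s _ => hV n s
        let u : MAlg (coins (W × ℕ)) := ⟨⋂ s ∈ T, V n s, hm, hne⟩
        obtain ⟨s0, hs0⟩ := hTne
        have huq : u ≤ q := null_diff_of_subset fun ω hω =>
          ((mem_iInter₂.1 hω) s0 hs0).2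
        obtain ⟨_, -, h⟩ := mem_fimp.1 (hc n T) u huq (by
          intro s
          rw [mem_fimp]
          intro u' hu' hs
          refine ⟨u', le_rfl, mem_meets.2 (null_diff_trans hu' (null_diff_of_subset fun ω hω =>
            ((mem_iInter₂.1 hω) s hs).1))⟩)
        exact hT h
      filter_upwards [measure_eq_zero_iff_ae_notMem.1 h0] with ω hω hω'
      exact absurd (mem_iInter₂.2 hω') hω
  have hsum : ∀ n, ∑' s : List Bool, coins (W × ℕ) (V n s) * (2⁻¹ : ℝ≥0∞) ^ s.length ≤
      (2⁻¹ : ℝ≥0∞) ^ n := by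
    intro n
    have h1 : ∀ s : List Bool, coins (W × ℕ) (V n s) * (2⁻¹ : ℝ≥0∞) ^ s.length =
        ∫⁻ ω, (V n s).indicator (fun _ => (2⁻¹ : ℝ≥0∞) ^ s.length) ω ∂(coins (W × ℕ)) := by
      intro s
      rw [lintegral_indicator (hV n s), setLIntegral_const, mul_comm]
    simp only [h1]
    rw [← lintegral_tsum fun s => (measurable_const.indicator (hV n s)).aemeasurable]
    have h2 : ∀ᵐ ω ∂(coins (W × ℕ)), ∑' s : List Bool,
        (V n s).indicator (fun _ => (2⁻¹ : ℝ≥0∞) ^ s.length) ω ≤ (2⁻¹ : ℝ≥0∞) ^ n := by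
      filter_upwards [ae_all_iff.2 fun T : Finset (List Bool) => hbd n T] with ω hω
      rw [ENNReal.tsum_eq_iSup_sum]
      refine iSup_le fun F => ?_
      have h3 := hω (F.filter fun s => ω ∈ V n s) fun s hs => (Finset.mem_filter.1 hs).2
      refine le_trans (le_of_eq ?_) h3
      rw [Finset.sum_filter]
      refine Finset.sum_congr rfl fun s _ => ?_
      simp only [Set.indicator_apply]
    refine (lintegral_mono_ae h2).trans ?_
    rw [lintegral_const, measure_univ, mul_one]
  let Bad : ℕ → Set (W × ℕ → Bool) := fun n => ⋃ s, V n s ∩ R s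
  have hBad : ∀ n, MeasurableSet (Bad n) := fun n =>
    MeasurableSet.iUnion fun s => (hV n s).inter (hR s)
  have hBadm : ∀ n, coins (W × ℕ) (Bad n) ≤ (2⁻¹ : ℝ≥0∞) ^ n := fun n =>
    (measure_iUnion_le _).trans ((ENNReal.tsum_le_tsum fun s => hVR n s).trans (hsum n))
  have hBad0 : coins (W × ℕ) (⋂ n, Bad n) = 0 := by
    by_contra hne
    obtain ⟨n, hn⟩ := ENNReal.exists_inv_two_pow_lt hne
    exact absurd ((measure_mono (iInter_subset Bad n)).trans (hBadm n)) (not_le.2 hn)
  refine mem_fex.2 fun q1 hq1 => ⟨q1, le_rfl, w, mem_fex.2 fun q2 hq2 => ?_⟩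
  obtain ⟨n, hn⟩ : ∃ n, coins (W × ℕ) (q2.s ∩ (Bad n)ᶜ) ≠ 0 := by
    by_contra hcon
    push Not at hcon
    apply q2.pos
    have h1 : q2.s ⊆ (⋂ n, Bad n) ∪ ⋃ n, q2.s ∩ (Bad n)ᶜ := by
      intro ω hω
      by_cases h : ω ∈ ⋂ n, Bad n
      · exact Or.inl h
      · right
        rw [mem_iInter, not_forall] at h
        obtain ⟨n, hn⟩ := h
        exact mem_iUnion.2 ⟨n, hω, hn⟩
    exact measure_mono_null h1 (measure_union_null hBad0 (measure_iUnion_null hcon))
  refine ⟨q2.inter _ (hBad n).compl hn, q2.inter_le _ _ _, n, fun s => ?_⟩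
  rw [mem_fimp]
  intro u hu hus
  refine ⟨u, le_rfl, fun v hv hvI => ?_⟩
  have h1 : ∀ᵐ ω ∂(coins (W × ℕ)), ω ∈ v.s → ω ∈ Bad n := by
    have h2 : ∀ᵐ ω ∂(coins (W × ℕ)), ∀ i : Fin s.length, ω ∈ v.s →
        (ω ∈ E w i ↔ s.get i = true) := by
      rw [ae_all_iff]
      exact fun i => ae_of_fiff (hE w i) (hvI i)
    have h3 := ae_imp_iff.2 (mem_meets.1 (down_meets hus hv))
    have h4 : v ≤ q := hv.trans (hu.trans ((q2.inter_le _ (hBad n).compl hn).trans (hq2.trans hq1)))
    filter_upwards [h2, h3, ae_imp_iff.2 h4] with ω g2 g3 g4 hω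
    refine mem_iUnion.2 ⟨s, ⟨g3 hω, g4 hω⟩, fun i => ?_⟩
    have := g2 i hω
    exact Bool.eq_iff_iff.2 this
  have h5 : v ≤ q2.inter _ (hBad n).compl hn := hv.trans hu
  refine v.false_of_disj (ae_imp_iff.1 h1) h5 ?_
  have : Bad n ∩ (q2.inter _ (hBad n).compl hn).s = ∅ := by
    ext ω
    simp only [mem_inter_iff, mem_empty_iff_false, iff_false, not_and]
    exact fun hω hω' => hω'.2 hω
  rw [this]
  simp

/-- the hypothesis for `non(N) < z` -/
def Hyp2 (W C : Type) [LinearOrder C] : Prop := Hyp W C ∧ NonNull W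

/-- `Hyp2` in the forcing language -/
def Hyp2N (P : Type) [Preorder P] (W C : Type) [LinearOrder C] : Set P :=
  fand (HypN P W C) (NonNullN P W)

theorem hyp2N_forced (hMA : MartinAxiom) {W C : Type} (hW : #W = ℵ_ 1)
    [LinearOrder C] [WellFoundedLT C] (hC : #C = 𝔠) (hCi : ∀ c : C, #(Iio c) < 𝔠)
    (hCH : ℵ_ 1 < (𝔠 : Cardinal.{0})) (p : MAlg (coins (W × ℕ))) :
    p ∈ Hyp2N (MAlg (coins (W × ℕ))) W C := by
  refine ⟨hypN_forced hMA ?_ hW hC hCi hCH p, nonNull_forced ?_ p⟩
  · rw [Cardinal.mk_prod, Cardinal.lift_id, Cardinal.lift_id, Cardinal.mk_nat, hW]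
    exact (Cardinal.mul_lt_of_lt Cardinal.aleph0_le_continuum hCH
      Cardinal.aleph0_lt_continuum).le
  · rw [hW, not_le]
    exact Cardinal.aleph0_lt_aleph_one

end Pool.Agent.R582.ZZ
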